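import Mathlib
import Pool.Agent.H47.L.R_pool_sql_team_seeded_2aa45f1a.Q128.PI.Half

/-! Two independent relations: almost all alternating matrices have a degenerate translate. -/

set_option autoImplicit false
set_option linter.all false

open Matrix

namespace Pool.Agent.Q128.PI

/-- the second moment method, total form -/
theorem second_moment' {Ω T : Type*} [Fintype Ω] (S : Finset T) (E : T → Ω → Prop) [∀ t w, Decidable (E t w)]
    [DecidablePred fun w => ∃ t ∈ S, E t w] (n A B : ℕ)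
    (hA : ∀ t ∈ S, (Finset.univ.filter fun w => E t w).card * n = A)
    (hB : ∑ t ∈ S, ∑ t' ∈ S, (Finset.univ.filter fun w => E t w ∧ E t' w).card * n ^ 2 ≤ B) :
    (S.card * A) ^ 2 ≤ (Finset.univ.filter fun w => ∃ t ∈ S, E t w).card * B := by
  classical
  set G := Finset.univ.filter fun w => ∃ t ∈ S, E t w with hG
  let W : Ω → ℕ := fun w => (S.filter fun t => E t w).card
  have h1 : ∑ w, W w = ∑ t ∈ S, (Finset.univ.filter fun w => E t w).card := by
    simp only [W, Finset.card_filter]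
    exact Finset.sum_comm
  have h2 : ∑ w, W w ^ 2 = ∑ t ∈ S, ∑ t' ∈ S, (Finset.univ.filter fun w => E t w ∧ E t' w).card := by
    have e1 : ∀ w, W w ^ 2 = ∑ t ∈ S, ∑ t' ∈ S, if E t w ∧ E t' w then 1 else 0 := by
      intro w
      simp only [W, Finset.card_filter, sq, Finset.sum_mul_sum]
      refine Finset.sum_congr rfl fun t _ => Finset.sum_congr rfl fun t' _ => ?_
      by_cases h : E t w <;> by_cases h' : E t' w <;> simp [h, h']
    simp only [e1, Finset.card_filter]
    rw [Finset.sum_comm]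
    refine Finset.sum_congr rfl fun t _ => ?_
    exact Finset.sum_comm
  have h3 : ∑ w ∈ G, W w = ∑ w, W w := by
    refine Finset.sum_subset (Finset.subset_univ _) fun w _ hw => ?_
    rw [hG, Finset.mem_filter, not_and] at hw
    have := hw (Finset.mem_univ _)
    push Not at this
    exact Finset.card_eq_zero.2 (Finset.filter_eq_empty_iff.2 fun t ht => this t ht)
  have h4 : (∑ w ∈ G, W w) ^ 2 ≤ G.card * ∑ w ∈ G, W w ^ 2 := by
    have := sq_sum_le_card_mul_sum_sq (s := G) (f := fun w => W w)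
    exact this
  have h5 : ∑ w ∈ G, W w ^ 2 ≤ ∑ w, W w ^ 2 :=
    Finset.sum_le_sum_of_subset (Finset.subset_univ _)
  have h6 : (∑ w, W w) * n = S.card * A := by
    rw [h1, Finset.sum_mul, Finset.sum_congr rfl hA, Finset.sum_const, smul_eq_mul]
  have h7 : (∑ w, W w ^ 2) * n ^ 2 ≤ B := by
    rw [h2, Finset.sum_mul]
    refine le_trans (le_of_eq ?_) hB
    exact Finset.sum_congr rfl fun t _ => by rw [Finset.sum_mul]
  calc (S.card * A) ^ 2 = (∑ w ∈ G, W w) ^ 2 * n ^ 2 := by rw [h3, ← h6]; ring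
      _ ≤ (G.card * ∑ w ∈ G, W w ^ 2) * n ^ 2 := Nat.mul_le_mul_right _ h4
      _ ≤ (G.card * ∑ w, W w ^ 2) * n ^ 2 := Nat.mul_le_mul_right _ (Nat.mul_le_mul_left _ h5)
      _ = G.card * ((∑ w, W w ^ 2) * n ^ 2) := by ring
      _ ≤ _ := Nat.mul_le_mul_left _ h7

variable {F : Type*} [Field F] [Fintype F] [DecidableEq F] {I : Type*} [Fintype I] [DecidableEq I]

/-- the kernel of a nonzero alternating matrix has codimension at least two -/
theorem card_ker_le (D : Matrix I I F) (hD : AltM D) (hD0 : D ≠ 0) :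
    (Finset.univ.filter fun a : I → F => D *ᵥ a = 0).card * Fintype.card F ^ 2 ≤ Fintype.card (I → F) := by
  obtain ⟨i, j, hij⟩ : ∃ i j, D i j ≠ 0 := by
    by_contra hc
    push Not at hc
    exact hD0 (Matrix.ext hc)
  have h1 : (Finset.univ.filter fun a : I → F => D *ᵥ a = 0).card * Fintype.card F ^ 2 =
      ((Finset.univ.filter fun a : I → F => D *ᵥ a = 0) ×ˢ (Finset.univ : Finset (F × F))).card := by
    rw [Finset.card_product, Finset.card_univ, Fintype.card_prod, sq]
  rw [h1, ← Finset.card_univ]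
  refine Finset.card_le_card_of_injOn (fun q => q.1 + (q.2.1 • Pi.single i 1 + q.2.2 • Pi.single j 1)) (fun _ _ => by simp) ?_
  rintro ⟨a, s, t⟩ h ⟨a', s', t'⟩ h' he
  simp only [Finset.coe_product, Set.mem_prod, Finset.mem_coe, Finset.mem_filter, Finset.mem_univ, true_and,
    and_true] at h h'
  replace he : a + (s • Pi.single i 1 + t • Pi.single j 1) = a' + (s' • Pi.single i 1 + t' • Pi.single j 1) := he
  have h2 := congrArg (fun v => D *ᵥ v) he
  simp only [mulVec_add, mulVec_smul, h, h', zero_add, mulVec_single_one] at h2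
  have hi := congrFun h2 i
  have hj := congrFun h2 j
  simp only [Pi.add_apply, Pi.smul_apply, Matrix.col_apply, smul_eq_mul] at hi hj
  rw [hD.1 i] at hi
  rw [hD.1 j, hD.2 j i] at hj
  have ht : t = t' := by
    have : (t - t') * D i j = 0 := by linear_combination hi
    exact sub_eq_zero.1 ((mul_eq_zero.1 this).resolve_right hij)
  have hs : s = s' := by
    have : (s - s') * D i j = 0 := by linear_combination -hj
    exact sub_eq_zero.1 ((mul_eq_zero.1 this).resolve_right hij)
  subst ht hs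
  have := add_right_cancel he
  rw [this]

/-- the pairs with a fixed first vector: a bound which always holds -/
theorem sum_pairs_all (D D' : Matrix I I F) (hD : AltM D) (a : I → F) (ha : a ≠ 0) :
    ∑ b ∈ Finset.univ.filter fun b : I → F => b ≠ 0,
      (Finset.univ.filter fun w => Ev D a w ∧ Ev D' b w).card * Fintype.card (I → F) ^ 2 ≤
      Fintype.card F ^ 3 * Fintype.card (Matrix I I F) * (Fintype.card (I → F) - 1) +
        Fintype.card F * Fintype.card (I → F) * Fintype.card (Matrix I I F) * (Fintype.card F - 1) := by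
  rw [← Finset.sum_filter_add_sum_filter_not _ (fun b => Indep a b)]
  refine Nat.add_le_add ?_ ?_
  · calc _ ≤ ∑ b ∈ (Finset.univ.filter fun b : I → F => b ≠ 0).filter (fun b => Indep a b),
            Fintype.card F ^ 3 * Fintype.card (Matrix I I F) :=
          Finset.sum_le_sum fun b hb => card_ev2 _ _ a b (Finset.mem_filter.1 hb).2
      _ ≤ _ := by
          rw [Finset.sum_const, smul_eq_mul, mul_comm]
          refine Nat.mul_le_mul_left _ ((Finset.card_le_card (Finset.filter_subset _ _)).trans ?_)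
          rw [Finset.filter_ne', Finset.card_erase_of_mem (Finset.mem_univ _), Finset.card_univ]
  · calc _ ≤ ∑ b ∈ (Finset.univ.filter fun b : I → F => b ≠ 0).filter (fun b => ¬ Indep a b),
            Fintype.card F * Fintype.card (I → F) * Fintype.card (Matrix I I F) :=
          Finset.sum_le_sum fun b hb => card_ev2_dep _ _ hD a b ha
      _ ≤ _ := by
          rw [Finset.sum_const, smul_eq_mul, mul_comm, Finset.filter_filter]
          exact Nat.mul_le_mul_left _ (card_dep_le a ha (fun b => b ≠ 0) (by simp))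

/-- the pairs with a fixed first vector outside the kernel of the difference -/
theorem sum_pairs_ne (D D' : Matrix I I F) (hD : AltM D) (hD' : AltM (D' - D)) (a : I → F)
    (ha : (D' - D) *ᵥ a ≠ 0) :
    ∑ b ∈ Finset.univ.filter fun b : I → F => b ≠ 0,
      (Finset.univ.filter fun w => Ev D a w ∧ Ev D' b w).card * Fintype.card (I → F) ^ 2 ≤
      Fintype.card F ^ 2 * Fintype.card (I → F) * Fintype.card (Matrix I I F) := by
  have ha0 : a ≠ 0 := by rintro rfl; exact ha (mulVec_zero _)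
  have f1 := card_hyp ((D' - D) *ᵥ a) ha
  rw [← Finset.sum_filter_add_sum_filter_not _ (fun b => a ⬝ᵥ ((D' - D) *ᵥ b) = 0), Finset.filter_filter,
    Finset.filter_filter]
  have e5 : ∑ b ∈ Finset.univ.filter fun b : I → F => b ≠ 0 ∧ ¬ a ⬝ᵥ ((D' - D) *ᵥ b) = 0,
      (Finset.univ.filter fun w => Ev D a w ∧ Ev D' b w).card * Fintype.card (I → F) ^ 2 = 0 := by
    refine Finset.sum_eq_zero fun b hb => ?_
    rw [Finset.mem_filter] at hb
    rw [card_ev2_zero D D' hD a b hb.2.2, zero_mul]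
  rw [e5, add_zero]
  calc _ ≤ ∑ b ∈ Finset.univ.filter fun b : I → F => b ≠ 0 ∧ a ⬝ᵥ ((D' - D) *ᵥ b) = 0,
        Fintype.card F ^ 3 * Fintype.card (Matrix I I F) := by
        refine Finset.sum_le_sum fun b hb => ?_
        rw [Finset.mem_filter] at hb
        by_cases hab : Indep a b
        · exact card_ev2 _ _ a b hab
        · have : (Finset.univ.filter fun w => Ev D a w ∧ Ev D' b w).card = 0 := by
            rw [Finset.card_eq_zero, Finset.filter_eq_empty_iff]
            rintro w _ ⟨h1, h2⟩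
            rw [Indep] at hab
            push Not at hab
            obtain ⟨t, rfl⟩ := dep_of a b ha0 hab
            have ht0 : t ≠ 0 := by
              rintro rfl
              apply hb.2.1
              rw [zero_smul]
            rw [Ev, mulVec_smul, smul_eq_zero] at h2
            have h3 := h2.resolve_left ht0
            rw [Ev] at h1
            rw [add_mulVec] at h1 h3
            apply ha
            rw [sub_mulVec]
            have := congrArg₂ (· - ·) h3 h1
            simpa using this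
          rw [this, zero_mul]
          exact Nat.zero_le _
    _ ≤ Fintype.card F ^ 3 * Fintype.card (Matrix I I F) *
        (Finset.univ.filter fun y : I → F => ((D' - D) *ᵥ a) ⬝ᵥ y = 0).card := by
        rw [Finset.sum_const, smul_eq_mul, mul_comm]
        refine Nat.mul_le_mul_left _ (Finset.card_le_card fun b hb => ?_)
        rw [Finset.mem_filter] at hb ⊢
        refine ⟨hb.1, ?_⟩
        rw [dotProduct_comm, hD'.dot b a, hb.2.2, neg_zero]
    _ = Fintype.card F ^ 2 * Fintype.card (Matrix I I F) *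
        ((Finset.univ.filter fun y : I → F => ((D' - D) *ᵥ a) ⬝ᵥ y = 0).card * Fintype.card F) := by ring
    _ = _ := by rw [f1]; ring

theorem AltM.add {D D' : Matrix I I F} (hD : AltM D) (hD' : AltM D') : AltM (D + D') :=
  ⟨fun u => by rw [Matrix.add_apply, hD.1, hD'.1, add_zero], fun u v => by
    rw [Matrix.add_apply, Matrix.add_apply, hD.2 u v, hD'.2 u v, neg_add]⟩

theorem AltM.sub {D D' : Matrix I I F} (hD : AltM D) (hD' : AltM D') : AltM (D - D') :=
  ⟨fun u => by rw [Matrix.sub_apply, hD.1, hD'.1, sub_zero], fun u v => by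
    rw [Matrix.sub_apply, Matrix.sub_apply, hD.2 u v, hD'.2 u v]; ring⟩

theorem arith2 (q h n M G : ℕ) (hq : 2 ≤ q) (hh : 1 ≤ h) (hn : n = q ^ 2 * h) (hM : 0 < M)
    (key : (q ^ 2 * (n - 1) * (q * M)) ^ 2 ≤ G * (q ^ 2 * ((n - 1) * (q ^ 3 * M * (n - 1) + q * n * M * (q - 1)) +
      (q ^ 2 - 1) * ((n - 1) * (q ^ 2 * n * M) + (h - 1) * (q ^ 3 * M * (n - 1) + q * n * M * (q - 1)))))) :
    q * M < q * G + 2 * M := by
  by_contra hcon
  push Not at hcon
  obtain ⟨q', rfl⟩ : ∃ q', q = q' + 2 := ⟨q - 2, by omega⟩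
  obtain ⟨h', rfl⟩ : ∃ h', h = h' + 1 := ⟨h - 1, by omega⟩
  have c1 : (q' + 2) * G ≤ q' * M := by nlinarith
  set R : ℕ := (n - 1) * ((q' + 2) ^ 3 * (n - 1) + (q' + 2) * n * (q' + 1)) +
      ((q' + 2) ^ 2 - 1) * ((n - 1) * ((q' + 2) ^ 2 * n) + h' * ((q' + 2) ^ 3 * (n - 1) + (q' + 2) * n * (q' + 1))) with hR
  have e1 : q' + 2 - 1 = q' + 1 := by omega
  have e2 : h' + 1 - 1 = h' := by omega
  rw [e1, e2] at key
  have key2 : (q' + 2) * ((q' + 2) ^ 2 * (n - 1) * ((q' + 2) * M)) ^ 2 ≤ q' * M * ((q' + 2) ^ 2 * (M * R)) := by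
    calc (q' + 2) * ((q' + 2) ^ 2 * (n - 1) * ((q' + 2) * M)) ^ 2
        ≤ (q' + 2) * (G * ((q' + 2) ^ 2 * ((n - 1) * ((q' + 2) ^ 3 * M * (n - 1) + (q' + 2) * n * M * (q' + 1)) +
      ((q' + 2) ^ 2 - 1) * ((n - 1) * ((q' + 2) ^ 2 * n * M) +
        h' * ((q' + 2) ^ 3 * M * (n - 1) + (q' + 2) * n * M * (q' + 1)))))) := Nat.mul_le_mul_left _ key
      _ = ((q' + 2) * G) * ((q' + 2) ^ 2 * (M * R)) := by rw [hR]; ring
      _ ≤ _ := Nat.mul_le_mul_right _ c1
  have key3 : (M ^ 2 * (q' + 2) ^ 2) * ((q' + 2) ^ 5 * (n - 1) ^ 2) ≤ (M ^ 2 * (q' + 2) ^ 2) * (q' * R) := by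
    calc (M ^ 2 * (q' + 2) ^ 2) * ((q' + 2) ^ 5 * (n - 1) ^ 2) =
          (q' + 2) * ((q' + 2) ^ 2 * (n - 1) * ((q' + 2) * M)) ^ 2 := by ring
      _ ≤ _ := key2
      _ = _ := by ring
  have key4 := Nat.le_of_mul_le_mul_left key3 (by positivity)
  -- pass to integers
  have hn1 : ((n - 1 : ℕ) : ℤ) = ((q' : ℤ) + 2) ^ 2 * (h' + 1) - 1 := by
    rw [hn]
    have : 1 ≤ (q' + 2) ^ 2 * (h' + 1) := Nat.one_le_iff_ne_zero.2 (by positivity)
    rw [Nat.cast_sub this]
    push_cast
    ring
  have hq1 : (((q' + 2) ^ 2 - 1 : ℕ) : ℤ) = ((q' : ℤ) + 2) ^ 2 - 1 := by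
    have : 1 ≤ (q' + 2) ^ 2 := Nat.one_le_iff_ne_zero.2 (by positivity)
    rw [Nat.cast_sub this]
    push_cast
    ring
  have hnn : (n : ℤ) = ((q' : ℤ) + 2) ^ 2 * (h' + 1) := by rw [hn]; push_cast; ring
  have key5 : (((q' + 2) ^ 5 * (n - 1) ^ 2 : ℕ) : ℤ) ≤ ((q' * R : ℕ) : ℤ) := by exact_mod_cast key4
  rw [hR] at key5
  simp only [Nat.cast_mul, Nat.cast_add, Nat.cast_pow, hn1, hq1, hnn, Nat.cast_ofNat, Nat.cast_one] at key5
  have hq0 : (0 : ℤ) ≤ q' := Int.natCast_nonneg _
  have hh0 : (0 : ℤ) ≤ h' := Int.natCast_nonneg _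
  generalize (q' : ℤ) = x at *
  generalize (h' : ℤ) = y at *
  have e : (x + 2) ^ 5 * ((x + 2) ^ 2 * (y + 1) - 1) ^ 2 -
      x * (((x + 2) ^ 2 * (y + 1) - 1) * ((x + 2) ^ 3 * ((x + 2) ^ 2 * (y + 1) - 1) +
        (x + 2) * ((x + 2) ^ 2 * (y + 1)) * (x + 1)) +
      ((x + 2) ^ 2 - 1) * (((x + 2) ^ 2 * (y + 1) - 1) * ((x + 2) ^ 2 * ((x + 2) ^ 2 * (y + 1))) +
        y * ((x + 2) ^ 3 * ((x + 2) ^ 2 * (y + 1) - 1) + (x + 2) * ((x + 2) ^ 2 * (y + 1)) * (x + 1)))) =
      x^8*y + x^8 + 3*x^7*y^2 + 20*x^7*y + 17*x^7 + 47*x^6*y^2 + 175*x^6*y + 127*x^6 + 307*x^5*y^2 +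
    855*x^5*y + 539*x^5 + 1087*x^4*y^2 + 2525*x^4*y + 1408*x^4 + 2258*x^3*y^2 + 4598*x^3*y + 2300*x^3 +
    2756*x^2*y^2 + 5036*x^2*y + 2280*x^2 + 1832*x*y^2 + 3032*x*y + 1248*x + 512*y^2 + 768*y + 288 := by ring
  have pos : 0 < x^8*y + x^8 + 3*x^7*y^2 + 20*x^7*y + 17*x^7 + 47*x^6*y^2 + 175*x^6*y + 127*x^6 + 307*x^5*y^2 +
    855*x^5*y + 539*x^5 + 1087*x^4*y^2 + 2525*x^4*y + 1408*x^4 + 2258*x^3*y^2 + 4598*x^3*y + 2300*x^3 +
    2756*x^2*y^2 + 5036*x^2*y + 2280*x^2 + 1832*x*y^2 + 3032*x*y + 1248*x + 512*y^2 + 768*y + 288 := by positivity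
  rw [← e, sub_pos] at pos
  exact absurd key5 (not_le.2 pos)

/-- **All but a proportion less than `2 / q`.** -/
theorem almost (D1 D2 : Matrix I I F) (hD1 : AltM D1) (hD2 : AltM D2)
    (hind : ∀ x y : F, x • D1 + y • D2 = 0 → x = 0 ∧ y = 0) :
    Fintype.card F * Fintype.card (Matrix I I F) <
      Fintype.card F * (Finset.univ.filter fun w : Matrix I I F => ∃ x y : F,
        (al w + (x • D1 + y • D2)).det = 0).card + 2 * Fintype.card (Matrix I I F) := by
  classical
  set q := Fintype.card F with hq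
  set n := Fintype.card (I → F) with hn
  set M := Fintype.card (Matrix I I F) with hM
  have hq2 : 2 ≤ q := Fintype.one_lt_card
  have hn0 : 0 < n := Fintype.card_pos
  have hM0 : 0 < M := Fintype.card_pos
  have hD10 : D1 ≠ 0 := by
    rintro rfl
    have := (hind 1 0 (by simp)).1
    exact one_ne_zero this
  -- `n = q ^ 2 * h`
  obtain ⟨h, hh, hnh⟩ : ∃ h, 1 ≤ h ∧ n = q ^ 2 * h := by
    have h2 : 2 ≤ Fintype.card I := by
      obtain ⟨i, j, hij⟩ : ∃ i j, D1 i j ≠ 0 := by
        by_contra hc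
        push Not at hc
        exact hD10 (Matrix.ext hc)
      have hne : i ≠ j := by
        rintro rfl
        exact hij (hD1.1 i)
      exact Fintype.one_lt_card_iff.2 ⟨i, j, hne⟩
    refine ⟨q ^ (Fintype.card I - 2), Nat.one_le_iff_ne_zero.2 (by positivity), ?_⟩
    rw [hn, Fintype.card_fun, ← pow_add, Nat.add_sub_cancel' h2]
  let Dc : F × F → Matrix I I F := fun c => c.1 • D1 + c.2 • D2
  have hDc : ∀ c, AltM (Dc c) := fun c => (hD1.smul _).add (hD2.smul _)
  have hDsub : ∀ c c', c' ≠ c → Dc c' - Dc c ≠ 0 := by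
    intro c c' hcc h0
    have e : Dc c' - Dc c = (c'.1 - c.1) • D1 + (c'.2 - c.2) • D2 := by
      simp only [Dc, sub_smul]
      abel
    rw [e] at h0
    obtain ⟨a1, a2⟩ := hind _ _ h0
    exact hcc (Prod.ext (sub_eq_zero.1 a1) (sub_eq_zero.1 a2))
  let A0 : Finset (I → F) := Finset.univ.filter fun a => a ≠ 0
  have hA0 : A0.card = n - 1 := by
    simp only [A0]
    rw [Finset.filter_ne', Finset.card_erase_of_mem (Finset.mem_univ _), Finset.card_univ]
  let S : Finset ((F × F) × (I → F)) := (Finset.univ : Finset (F × F)) ×ˢ A0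
  have hS : S.card = q ^ 2 * (n - 1) := by
    rw [Finset.card_product, hA0, Finset.card_univ, Fintype.card_prod, ← hq]
    ring
  set E0 := q ^ 3 * M * (n - 1) + q * n * M * (q - 1) with hE0
  have key := second_moment' (Ω := Matrix I I F) S (fun t w => Ev (Dc t.1) t.2 w) n (q * M)
    (q ^ 2 * ((n - 1) * E0 + (q ^ 2 - 1) * ((n - 1) * (q ^ 2 * n * M) + (h - 1) * E0))) ?_ ?_
  · rw [hS] at key
    set G' := (Finset.univ.filter fun w : Matrix I I F => ∃ t ∈ S, Ev (Dc t.1) t.2 w).card with hG'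
    set G := (Finset.univ.filter fun w : Matrix I I F => ∃ x y : F, (al w + (x • D1 + y • D2)).det = 0).card with hG
    have hGG : G' ≤ G := by
      refine Finset.card_le_card fun w hw => ?_
      rw [Finset.mem_filter] at hw ⊢
      obtain ⟨_, ⟨c, a⟩, ht, hw⟩ := hw
      simp only [S, A0, Finset.mem_filter, Finset.mem_univ, true_and, Finset.mem_product] at ht
      exact ⟨Finset.mem_univ _, c.1, c.2, Matrix.exists_mulVec_eq_zero_iff.1 ⟨a, ht, hw⟩⟩
    have := arith2 q h n M G' hq2 hh hnh hM0 key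
    calc q * M < q * G' + 2 * M := this
      _ ≤ q * G + 2 * M := Nat.add_le_add_right (Nat.mul_le_mul_left _ hGG) _
  · rintro ⟨c, a⟩ ht
    simp only [S, A0, Finset.mem_filter, Finset.mem_univ, true_and, Finset.mem_product] at ht
    exact card_ev (hDc c) a ht
  · have e1 : ∑ t ∈ S, ∑ t' ∈ S, (Finset.univ.filter fun w => Ev (Dc t.1) t.2 w ∧ Ev (Dc t'.1) t'.2 w).card * n ^ 2 =
        ∑ c : F × F, ∑ c' : F × F, ∑ a ∈ A0, ∑ b ∈ A0,
          (Finset.univ.filter fun w => Ev (Dc c) a w ∧ Ev (Dc c') b w).card * n ^ 2 := by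
      simp only [S]
      rw [Finset.sum_product]
      refine Finset.sum_congr rfl fun c _ => ?_
      rw [Finset.sum_comm' (s := (Finset.univ : Finset (F × F))) (t := fun _ => A0) (t' := A0)
        (s' := fun _ => Finset.univ) (by intro x y; exact Iff.rfl)]
      refine Finset.sum_congr rfl fun a _ => ?_
      rw [Finset.sum_product]
    change ∑ t ∈ S, ∑ t' ∈ S, (Finset.univ.filter fun w => Ev (Dc t.1) t.2 w ∧ Ev (Dc t'.1) t'.2 w).card * n ^ 2 ≤ _
    rw [e1]
    have e2 : q ^ 2 = (Finset.univ : Finset (F × F)).card := by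
      rw [Finset.card_univ, Fintype.card_prod, sq]
    conv_rhs => rw [e2]
    rw [← smul_eq_mul]
    refine Finset.sum_le_card_nsmul _ _ _ fun c _ => ?_
    rw [← Finset.add_sum_erase _ _ (Finset.mem_univ c)]
    refine Nat.add_le_add ?_ ?_
    · -- the same translate
      calc _ ≤ ∑ a ∈ A0, E0 := by
            refine Finset.sum_le_sum fun a ha => ?_
            simp only [A0, Finset.mem_filter, Finset.mem_univ, true_and] at ha
            exact sum_pairs_all (Dc c) (Dc c) (hDc c) a ha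
        _ = _ := by rw [Finset.sum_const, hA0, smul_eq_mul]
    · have e3 : (Finset.univ : Finset (F × F)).card - 1 = ((Finset.univ : Finset (F × F)).erase c).card := by
        rw [Finset.card_erase_of_mem (Finset.mem_univ _)]
      rw [e3, ← smul_eq_mul]
      refine Finset.sum_le_card_nsmul _ _ _ fun c' hc' => ?_
      have hcc : c' ≠ c := Finset.ne_of_mem_erase hc'
      rw [← Finset.sum_filter_add_sum_filter_not A0 (fun a => (Dc c' - Dc c) *ᵥ a ≠ 0)]
      refine Nat.add_le_add ?_ ?_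
      · calc _ ≤ ∑ a ∈ A0.filter (fun a => (Dc c' - Dc c) *ᵥ a ≠ 0), q ^ 2 * n * M := by
              refine Finset.sum_le_sum fun a ha => ?_
              exact sum_pairs_ne (Dc c) (Dc c') (hDc c) ((hDc c').sub (hDc c)) a (Finset.mem_filter.1 ha).2
          _ ≤ _ := by
              rw [Finset.sum_const, smul_eq_mul, ← hA0, e2]
              exact Nat.mul_le_mul_right _ (Finset.card_le_card (Finset.filter_subset _ _))
      · calc _ ≤ ∑ a ∈ A0.filter (fun a => ¬ (Dc c' - Dc c) *ᵥ a ≠ 0), E0 := by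
              refine Finset.sum_le_sum fun a ha => ?_
              have ha' := (Finset.mem_filter.1 ha).1
              simp only [A0, Finset.mem_filter, Finset.mem_univ, true_and] at ha'
              exact sum_pairs_all (Dc c) (Dc c') (hDc c) a ha'
          _ ≤ _ := by
              rw [Finset.sum_const, smul_eq_mul]
              refine Nat.mul_le_mul_right _ ?_
              have f1 := card_ker_le (Dc c' - Dc c) ((hDc c').sub (hDc c)) (hDsub c c' hcc)
              have f2 : A0.filter (fun a => ¬ (Dc c' - Dc c) *ᵥ a ≠ 0) =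
                  (Finset.univ.filter fun a : I → F => (Dc c' - Dc c) *ᵥ a = 0).erase 0 := by
                ext a
                simp only [A0, Finset.mem_filter, Finset.mem_univ, true_and, Finset.mem_erase, not_not]
              have f3 : (Finset.univ.filter fun a : I → F => (Dc c' - Dc c) *ᵥ a = 0).card ≤ h := by
                have : (Finset.univ.filter fun a : I → F => (Dc c' - Dc c) *ᵥ a = 0).card * q ^ 2 ≤ h * q ^ 2 := by
                  refine f1.trans (le_of_eq ?_)
                  rw [← hn, hnh, mul_comm]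
                exact Nat.le_of_mul_le_mul_right this (by positivity)
              rw [f2, Finset.card_erase_of_mem (by simp)]
              omega

end Pool.Agent.Q128.PI
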