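import Mathlib
import Pool.Agent.H47.L.R_pool_sql_team_seeded_2aa45f1a.Q128.PI.Simple

/-! Counting the degenerate translates with a multiple root. -/

set_option autoImplicit false
set_option linter.all false

open Matrix

namespace Pool.Agent.Q128.PI

variable {F : Type*} [Field F] [Fintype F] [DecidableEq F] {I : Type*} [Fintype I] [DecidableEq I]

/-- the pairs on which both forms vanish -/
abbrev P2 (D1 D2 : Matrix I I F) (a b : I → F) : Prop := a ⬝ᵥ (D1 *ᵥ b) = 0 ∧ a ⬝ᵥ (D2 *ᵥ b) = 0

theorem form_comb {D : Matrix I I F} (hD : AltM D) (a b : I → F) (y z y' z' : F) :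
    (y • a + z • b) ⬝ᵥ (D *ᵥ (y' • a + z' • b)) = (y * z' - z * y') * (a ⬝ᵥ (D *ᵥ b)) := by
  rw [mulVec_add, mulVec_smul, mulVec_smul, add_dotProduct, dotProduct_add, dotProduct_add, smul_dotProduct,
    smul_dotProduct, smul_dotProduct, smul_dotProduct, dotProduct_smul, dotProduct_smul, dotProduct_smul,
    dotProduct_smul, hD.dot_self a, hD.dot_self b, hD.dot b a]
  simp only [smul_eq_mul]
  ring

theorem indep_comb {a b : I → F} (h : Indep a b) (y z y' z' : F) (hd : y * z' - z * y' ≠ 0) :
    Indep (y • a + z • b) (y' • a + z' • b) := by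
  obtain ⟨i, j, hij⟩ := h
  refine ⟨i, j, ?_⟩
  simp only [Pi.add_apply, Pi.smul_apply, smul_eq_mul]
  have : (y * a i + z * b i) * (y' * a j + z' * b j) - (y * a j + z * b j) * (y' * a i + z' * b i) =
      (y * z' - z * y') * (a i * b j - a j * b i) := by ring
  rw [this]
  exact mul_ne_zero hd hij

/-- **Markov's bound for the translates with a multiple root.** -/
theorem bad_count {X : Type*} [Fintype X] [DecidableEq X] (T : X → Matrix I I F) (D1 D2 : Matrix I I F)
    (h1 : AltM D1) (h2 : AltM D2)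
    [DecidablePred fun w : Matrix I I F => ∃ x a b, Indep a b ∧ Ev (T x) a w ∧ Ev (T x) b w ∧ P2 D1 D2 a b] :
    (Finset.univ.filter fun w : Matrix I I F => ∃ x a b, Indep a b ∧ Ev (T x) a w ∧ Ev (T x) b w ∧
        P2 D1 D2 a b).card * ((Fintype.card F - 1) ^ 2 * Fintype.card F ^ 2) * Fintype.card (I → F) ^ 2 ≤
      Fintype.card X * (Finset.univ.filter fun ab : (I → F) × (I → F) => P2 D1 D2 ab.1 ab.2).card *
        (Fintype.card F ^ 3 * Fintype.card (Matrix I I F)) := by
  classical
  let Tr : Finset (X × (I → F) × (I → F)) := Finset.univ.filter fun t => Indep t.2.1 t.2.2 ∧ P2 D1 D2 t.2.1 t.2.2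
  let E : X × (I → F) × (I → F) → Matrix I I F → Prop := fun t w => Ev (T t.1) t.2.1 w ∧ Ev (T t.1) t.2.2 w
  have hsum : ∑ w, (Tr.filter fun t => E t w).card = ∑ t ∈ Tr, (Finset.univ.filter fun w => E t w).card := by
    simp only [Finset.card_filter]
    exact Finset.sum_comm
  have hlow : ∀ w ∈ Finset.univ.filter fun w : Matrix I I F => ∃ x a b, Indep a b ∧ Ev (T x) a w ∧ Ev (T x) b w ∧
      P2 D1 D2 a b, (Fintype.card F - 1) ^ 2 * Fintype.card F ^ 2 ≤ (Tr.filter fun t => E t w).card := by
    intro w hw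
    rw [Finset.mem_filter] at hw
    obtain ⟨_, x, a, b, hab, ha, hb, hp1, hp2⟩ := hw
    let Z : Finset ((F × F) × (F × F)) := ((Finset.univ.erase 0) ×ˢ (Finset.univ.erase 0)) ×ˢ
      (Finset.univ ×ˢ Finset.univ)
    have hZ : Z.card = (Fintype.card F - 1) ^ 2 * Fintype.card F ^ 2 := by
      simp only [Z]
      rw [Finset.card_product, Finset.card_product, Finset.card_product, Finset.card_erase_of_mem (Finset.mem_univ _),
        Finset.card_univ, sq, sq]
    rw [← hZ]
    refine Finset.card_le_card_of_injOn (fun c => (x, c.1.1 • a + c.2.1 • b,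
      c.2.2 • a + ((c.1.2 + c.2.1 * c.2.2) / c.1.1) • b)) ?_ ?_
    · rintro ⟨⟨y, δ⟩, ⟨z, y'⟩⟩ hc
      simp only [Z, Finset.coe_product, Set.mem_prod, Finset.mem_coe, Finset.mem_erase, Finset.mem_univ, and_true] at hc
      have hd : y * ((δ + z * y') / y) - z * y' = δ := by
        have := hc.1
        field_simp
        ring
      rw [Finset.mem_coe, Finset.mem_filter]
      refine ⟨?_, ?_, ?_⟩
      · simp only [Tr, Finset.mem_filter, Finset.mem_univ, true_and]
        refine ⟨indep_comb hab _ _ _ _ (by rw [hd]; exact hc.2), ?_, ?_⟩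
        · rw [form_comb h1, hp1, mul_zero]
        · rw [form_comb h2, hp2, mul_zero]
      · change (al w + T x) *ᵥ (y • a + z • b) = 0
        rw [mulVec_add, mulVec_smul, mulVec_smul, ha, hb, smul_zero, smul_zero, add_zero]
      · change (al w + T x) *ᵥ (y' • a + ((δ + z * y') / y) • b) = 0
        rw [mulVec_add, mulVec_smul, mulVec_smul, ha, hb, smul_zero, smul_zero, add_zero]
    · rintro ⟨⟨y, δ⟩, ⟨z, y'⟩⟩ hc ⟨⟨s, ε⟩, ⟨t, s'⟩⟩ hc' he
      simp only [Z, Finset.coe_product, Set.mem_prod, Finset.mem_coe, Finset.mem_erase, Finset.mem_univ, and_true]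
        at hc hc'
      simp only [Prod.mk.injEq, true_and] at he
      have hli := li_of hab
      rw [LinearIndependent.pair_iff] at hli
      have e1 := hli (y - s) (z - t) (by rw [sub_smul, sub_smul]; rw [← sub_eq_zero] at he; rw [← he.1]; abel)
      have e2 := hli (y' - s') ((δ + z * y') / y - (ε + t * s') / s) (by
        rw [sub_smul, sub_smul]
        have := sub_eq_zero.2 he.2
        rw [← this]; abel)
      have f1 : y = s := sub_eq_zero.1 e1.1
      have f2 : z = t := sub_eq_zero.1 e1.2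
      have f3 : y' = s' := sub_eq_zero.1 e2.1
      subst f1 f2 f3
      have f4 : δ = ε := by
        have h3 := sub_eq_zero.1 e2.2
        have hy := hc.1
        field_simp at h3
        linear_combination h3
      subst f4
      rfl
  have h3 := Finset.card_nsmul_le_sum _ _ _ hlow
  rw [smul_eq_mul] at h3
  have h4 : ∑ w ∈ Finset.univ.filter fun w : Matrix I I F => ∃ x a b, Indep a b ∧ Ev (T x) a w ∧ Ev (T x) b w ∧
      P2 D1 D2 a b, (Tr.filter fun t => E t w).card ≤ ∑ w, (Tr.filter fun t => E t w).card :=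
    Finset.sum_le_sum_of_subset (Finset.subset_univ _)
  have h5 : (∑ t ∈ Tr, (Finset.univ.filter fun w => E t w).card) * Fintype.card (I → F) ^ 2 ≤
      Tr.card * (Fintype.card F ^ 3 * Fintype.card (Matrix I I F)) := by
    rw [Finset.sum_mul, ← smul_eq_mul (a := Tr.card)]
    refine Finset.sum_le_card_nsmul _ _ _ fun t ht => ?_
    simp only [Tr, Finset.mem_filter, Finset.mem_univ, true_and] at ht
    exact card_ev2 _ _ _ _ ht.1
  have h6 : Tr.card ≤ Fintype.card X * (Finset.univ.filter fun ab : (I → F) × (I → F) => P2 D1 D2 ab.1 ab.2).card := by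
    rw [← Finset.card_univ, ← Finset.card_product]
    refine Finset.card_le_card fun t ht => ?_
    simp only [Tr, Finset.mem_filter, Finset.mem_univ, true_and] at ht
    rw [Finset.mem_product, Finset.mem_filter]
    exact ⟨Finset.mem_univ _, Finset.mem_univ _, ht.2⟩
  calc _ ≤ (∑ w, (Tr.filter fun t => E t w).card) * Fintype.card (I → F) ^ 2 :=
        Nat.mul_le_mul_right _ (h3.trans h4)
    _ ≤ Tr.card * (Fintype.card F ^ 3 * Fintype.card (Matrix I I F)) := by rw [hsum]; exact h5
    _ ≤ _ := Nat.mul_le_mul_right _ h6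

theorem card_pairs (P : (I → F) → (I → F) → Prop) [∀ a b, Decidable (P a b)] :
    (Finset.univ.filter fun ab : (I → F) × (I → F) => P ab.1 ab.2).card =
      ∑ a : I → F, (Finset.univ.filter fun b : I → F => P a b).card := by
  simp only [Finset.card_filter]
  exact Fintype.sum_prod_type _

theorem dual2 {c d : I → F} (h : Indep c d) : ∃ c' d' : I → F, c ⬝ᵥ c' = 1 ∧ d ⬝ᵥ c' = 0 ∧ c ⬝ᵥ d' = 0 ∧
    d ⬝ᵥ d' = 1 := by
  obtain ⟨i, j, hij⟩ := h
  obtain ⟨Δ, hΔ⟩ : ∃ Δ, Δ = c i * d j - c j * d i := ⟨_, rfl⟩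
  rw [← hΔ] at hij
  refine ⟨Pi.single i (d j / Δ) - Pi.single j (d i / Δ), Pi.single j (c i / Δ) - Pi.single i (c j / Δ),
    ?_, ?_, ?_, ?_⟩
  · rw [dotProduct_sub, dotProduct_single, dotProduct_single]
    field_simp
    rw [hΔ]
  · rw [dotProduct_sub, dotProduct_single, dotProduct_single]
    field_simp
    ring
  · rw [dotProduct_sub, dotProduct_single, dotProduct_single]
    field_simp
    ring
  · rw [dotProduct_sub, dotProduct_single, dotProduct_single]
    field_simp
    rw [hΔ]
    ring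

theorem card_perp2 {c d : I → F} (h : Indep c d) :
    (Finset.univ.filter fun b : I → F => c ⬝ᵥ b = 0 ∧ d ⬝ᵥ b = 0).card * Fintype.card F ^ 2 ≤
      Fintype.card (I → F) := by
  obtain ⟨c', d', h1, h2, h3, h4⟩ := dual2 h
  have e1 : (Finset.univ.filter fun b : I → F => c ⬝ᵥ b = 0 ∧ d ⬝ᵥ b = 0).card * Fintype.card F ^ 2 =
      ((Finset.univ.filter fun b : I → F => c ⬝ᵥ b = 0 ∧ d ⬝ᵥ b = 0) ×ˢ (Finset.univ : Finset (F × F))).card := by
    rw [Finset.card_product, Finset.card_univ, Fintype.card_prod, sq]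
  rw [e1, ← Finset.card_univ]
  refine Finset.card_le_card_of_injOn (fun q => q.1 + (q.2.1 • c' + q.2.2 • d')) (fun _ _ => by simp) ?_
  rintro ⟨b, s, t⟩ h ⟨b', s', t'⟩ h' he
  simp only [Finset.coe_product, Set.mem_prod, Finset.mem_coe, Finset.mem_filter, Finset.mem_univ, true_and,
    and_true] at h h'
  replace he : b + (s • c' + t • d') = b' + (s' • c' + t' • d') := he
  have e2 := congrArg (fun v => c ⬝ᵥ v) he
  have e3 := congrArg (fun v => d ⬝ᵥ v) he
  simp only [dotProduct_add, dotProduct_smul, h, h', h1, h2, h3, h4, smul_eq_mul, mul_one, mul_zero, add_zero,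
    zero_add] at e2 e3
  subst e2 e3
  have := add_right_cancel he
  rw [this]

/-- one relation: the number of orthogonal pairs -/
theorem cnt1 (D : Matrix I I F) (hD : AltM D) (hD0 : D ≠ 0) (h : ℕ)
    (hn : Fintype.card (I → F) = Fintype.card F ^ 2 * h) :
    (Finset.univ.filter fun ab : (I → F) × (I → F) => P2 D 0 ab.1 ab.2).card ≤
      Fintype.card F ^ 2 * h * (h * (Fintype.card F + 1)) := by
  classical
  set q := Fintype.card F with hq
  have hq0 : 0 < q := Fintype.card_pos
  have h1 : (Finset.univ.filter fun a : I → F => D *ᵥ a = 0).card ≤ h := by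
    have := card_ker_le D hD hD0
    rw [hn, ← hq, mul_comm] at this
    exact Nat.le_of_mul_le_mul_left this (by positivity)
  have h2 : ∀ a : I → F, (Finset.univ.filter fun b : I → F => P2 D 0 a b).card ≤
      q * h + if D *ᵥ a = 0 then q ^ 2 * h else 0 := by
    intro a
    by_cases ha : D *ᵥ a = 0
    · rw [if_pos ha]
      refine (Finset.card_le_univ _).trans ?_
      rw [hn]
      exact Nat.le_add_left _ _
    · rw [if_neg ha, add_zero]
      have h3 := card_hyp (D *ᵥ a) ha
      have h4 : (Finset.univ.filter fun b : I → F => P2 D 0 a b).card ≤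
          (Finset.univ.filter fun y : I → F => (D *ᵥ a) ⬝ᵥ y = 0).card := by
        refine Finset.card_le_card fun b hb => ?_
        rw [Finset.mem_filter] at hb ⊢
        refine ⟨hb.1, ?_⟩
        rw [dotProduct_comm, hD.dot b a, hb.2.1, neg_zero]
      refine h4.trans ?_
      rw [hn, ← hq] at h3
      have h5 : (Finset.univ.filter fun y : I → F => (D *ᵥ a) ⬝ᵥ y = 0).card * q = q * h * q := by rw [h3]; ring
      exact le_of_eq (Nat.eq_of_mul_eq_mul_right hq0 h5)
  refine le_trans (le_of_eq (card_pairs fun a b : I → F => P2 D 0 a b)) ?_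
  calc ∑ a : I → F, (Finset.univ.filter fun b : I → F => P2 D 0 a b).card
      ≤ ∑ a : I → F, (q * h + if D *ᵥ a = 0 then q ^ 2 * h else 0) := Finset.sum_le_sum fun a _ => h2 a
    _ = q ^ 2 * h * (q * h) + (Finset.univ.filter fun a : I → F => D *ᵥ a = 0).card * (q ^ 2 * h) := by
        rw [Finset.sum_add_distrib, Finset.sum_const, Finset.card_univ, hn, ← Finset.sum_filter, Finset.sum_const,
          smul_eq_mul, smul_eq_mul]
    _ ≤ q ^ 2 * h * (q * h) + h * (q ^ 2 * h) := Nat.add_le_add_left (Nat.mul_le_mul_right _ h1) _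
    _ = _ := by ring

theorem indep_symm {a b : I → F} (h : Indep a b) : Indep b a := by
  obtain ⟨i, j, hij⟩ := h
  refine ⟨j, i, ?_⟩
  intro h0
  apply hij
  linear_combination h0

/-- two relations: the number of pairs orthogonal for both -/
theorem cnt2 (D1 D2 : Matrix I I F) (hD1 : AltM D1) (hD2 : AltM D2)
    (hind : ∀ x y : F, x • D1 + y • D2 = 0 → x = 0 ∧ y = 0) (h : ℕ)
    (hn : Fintype.card (I → F) = Fintype.card F ^ 2 * h) :
    (Finset.univ.filter fun ab : (I → F) × (I → F) => P2 D1 D2 ab.1 ab.2).card ≤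
      (3 * Fintype.card F ^ 2 + Fintype.card F) * h ^ 2 := by
  classical
  set q := Fintype.card F with hq
  have hq0 : 0 < q := Fintype.card_pos
  have hker : ∀ D : Matrix I I F, AltM D → D ≠ 0 → (Finset.univ.filter fun a : I → F => D *ᵥ a = 0).card ≤ h := by
    intro D hD hD0
    have := card_ker_le D hD hD0
    rw [hn, ← hq, mul_comm] at this
    exact Nat.le_of_mul_le_mul_left this (by positivity)
  have hD10 : D1 ≠ 0 := by
    rintro rfl
    exact one_ne_zero (hind 1 0 (by simp)).1
  have hD20 : D2 ≠ 0 := by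
    rintro rfl
    exact one_ne_zero (hind 0 1 (by simp)).2
  have hhyp : ∀ c : I → F, c ≠ 0 → (Finset.univ.filter fun y : I → F => c ⬝ᵥ y = 0).card = q * h := by
    intro c hc
    have h3 := card_hyp c hc
    rw [hn, ← hq] at h3
    have h5 : (Finset.univ.filter fun y : I → F => c ⬝ᵥ y = 0).card * q = q * h * q := by rw [h3]; ring
    exact Nat.eq_of_mul_eq_mul_right hq0 h5
  -- dependent vectors
  have hdep : (Finset.univ.filter fun a : I → F => ¬ Indep (D1 *ᵥ a) (D2 *ᵥ a)).card ≤ (q + 1) * h := by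
    have h1 : (Finset.univ.filter fun a : I → F => ¬ Indep (D1 *ᵥ a) (D2 *ᵥ a)) ⊆
        (Finset.univ.biUnion fun t : F => Finset.univ.filter fun a : I → F => (D1 - t • D2) *ᵥ a = 0) ∪
          Finset.univ.filter fun a : I → F => D2 *ᵥ a = 0 := by
      intro a ha
      rw [Finset.mem_filter] at ha
      rw [Finset.mem_union, Finset.mem_biUnion, Finset.mem_filter]
      by_cases h0 : D2 *ᵥ a = 0
      · exact Or.inr ⟨Finset.mem_univ _, h0⟩
      · left
        have h1 : ¬ Indep (D2 *ᵥ a) (D1 *ᵥ a) := fun h => ha.2 (indep_symm h)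
        rw [Indep] at h1
        push Not at h1
        obtain ⟨t, ht⟩ := dep_of _ _ h0 h1
        refine ⟨t, Finset.mem_univ _, Finset.mem_filter.2 ⟨Finset.mem_univ _, ?_⟩⟩
        rw [sub_mulVec, smul_mulVec, ht, sub_self]
    refine (Finset.card_le_card h1).trans ((Finset.card_union_le _ _).trans ?_)
    have h2 : (Finset.univ.biUnion fun t : F => Finset.univ.filter fun a : I → F => (D1 - t • D2) *ᵥ a = 0).card ≤
        q * h := by
      refine Finset.card_biUnion_le.trans ?_
      calc _ ≤ ∑ t : F, h := Finset.sum_le_sum fun t _ => hker _ (hD1.sub (hD2.smul t)) (by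
            intro h0
            have := (hind 1 (-t) (by rw [one_smul, neg_smul, ← sub_eq_add_neg]; exact h0)).1
            exact one_ne_zero this)
        _ = q * h := by rw [Finset.sum_const, Finset.card_univ, smul_eq_mul]
    have h3 := hker D2 hD2 hD20
    calc _ ≤ q * h + h := Nat.add_le_add h2 h3
      _ = _ := by ring
  have h2 : ∀ a : I → F, (Finset.univ.filter fun b : I → F => P2 D1 D2 a b).card ≤
      h + ((if ¬ Indep (D1 *ᵥ a) (D2 *ᵥ a) then q * h else 0) + if D1 *ᵥ a = 0 then q ^ 2 * h else 0) := by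
    intro a
    by_cases ha : Indep (D1 *ᵥ a) (D2 *ᵥ a)
    · have h4 : (Finset.univ.filter fun b : I → F => P2 D1 D2 a b).card ≤
          (Finset.univ.filter fun b : I → F => (D1 *ᵥ a) ⬝ᵥ b = 0 ∧ (D2 *ᵥ a) ⬝ᵥ b = 0).card := by
        refine Finset.card_le_card fun b hb => ?_
        rw [Finset.mem_filter] at hb ⊢
        refine ⟨hb.1, ?_, ?_⟩
        · rw [dotProduct_comm, hD1.dot b a, hb.2.1, neg_zero]
        · rw [dotProduct_comm, hD2.dot b a, hb.2.2, neg_zero]
      have h5 := card_perp2 ha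
      rw [hn, ← hq, mul_comm] at h5
      have h6 := Nat.le_of_mul_le_mul_left h5 (by positivity)
      exact (h4.trans h6).trans (Nat.le_add_right _ _)
    · rw [if_pos ha]
      by_cases ha1 : D1 *ᵥ a = 0
      · rw [if_pos ha1]
        refine (Finset.card_le_univ _).trans ?_
        rw [hn]
        omega
      · rw [if_neg ha1]
        have h4 : (Finset.univ.filter fun b : I → F => P2 D1 D2 a b).card ≤
            (Finset.univ.filter fun y : I → F => (D1 *ᵥ a) ⬝ᵥ y = 0).card := by
          refine Finset.card_le_card fun b hb => ?_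
          rw [Finset.mem_filter] at hb ⊢
          refine ⟨hb.1, ?_⟩
          rw [dotProduct_comm, hD1.dot b a, hb.2.1, neg_zero]
        rw [hhyp _ ha1] at h4
        omega
  refine le_trans (le_of_eq (card_pairs fun a b : I → F => P2 D1 D2 a b)) ?_
  calc ∑ a : I → F, (Finset.univ.filter fun b : I → F => P2 D1 D2 a b).card
      ≤ ∑ a : I → F, (h + ((if ¬ Indep (D1 *ᵥ a) (D2 *ᵥ a) then q * h else 0) + if D1 *ᵥ a = 0 then q ^ 2 * h else 0)) :=
        Finset.sum_le_sum fun a _ => h2 a
    _ = q ^ 2 * h * h + ((Finset.univ.filter fun a : I → F => ¬ Indep (D1 *ᵥ a) (D2 *ᵥ a)).card * (q * h) +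
        (Finset.univ.filter fun a : I → F => D1 *ᵥ a = 0).card * (q ^ 2 * h)) := by
        rw [Finset.sum_add_distrib, Finset.sum_const, Finset.card_univ, hn, Finset.sum_add_distrib,
          ← Finset.sum_filter, ← Finset.sum_filter, Finset.sum_const, Finset.sum_const, smul_eq_mul, smul_eq_mul,
          smul_eq_mul]
    _ ≤ q ^ 2 * h * h + ((q + 1) * h * (q * h) + h * (q ^ 2 * h)) :=
        Nat.add_le_add_left (Nat.add_le_add (Nat.mul_le_mul_right _ hdep)
          (Nat.mul_le_mul_right _ (hker D1 hD1 hD10))) _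
    _ = _ := by ring

end Pool.Agent.Q128.PI
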