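import Mathlib
import Pool.Agent.H47.L.R_pool_sql_team_seeded_2aa45f1a.Q128.PI.Half
import Pool.Agent.H47.L.R_seed8.Y109.PI.RM

/-! From counting matrices to counting Brauer classes. -/

set_option autoImplicit false
set_option linter.all false

open Matrix

namespace Pool.Agent.Q128.PI

open Pool.Agent.Helper18.Br Pool.Agent.H552R3.SymBr Pool.Agent.H552R3.SymPred Pool.Agent.H552R3.Tsen
  Pool.Agent.Y109.PI

universe u

/-- counting through a surjective homomorphism -/
theorem push {M S : Type*} [AddCommGroup M] [Fintype M] [AddCommGroup S] (f : M →+ S) (hf : Function.Surjective f)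
    (P : S → Prop) : Finite S ∧ Fintype.card M * Nat.card {s // P s} = Nat.card S * Nat.card {w // P (f w)} := by
  classical
  haveI : Finite S := Finite.of_surjective f hf
  haveI : Fintype S := Fintype.ofFinite S
  refine ⟨inferInstance, ?_⟩
  have h1 : ∀ s, (Finset.univ.filter fun w => f w = s).card = (Finset.univ.filter fun w => f w = 0).card := by
    intro s
    obtain ⟨w0, rfl⟩ := hf s
    exact card_fib f w0
  set c := (Finset.univ.filter fun w => f w = 0).card with hc
  have h2 : Fintype.card M = Fintype.card S * c := by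
    rw [← Finset.card_univ, Finset.card_eq_sum_card_fiberwise (f := f) (t := Finset.univ)
      (fun _ _ => Finset.mem_coe.2 (Finset.mem_univ _)), Finset.sum_const_nat (fun s _ => h1 s), Finset.card_univ]
  have h3 : Nat.card {w // P (f w)} = Nat.card {s // P s} * c := by
    rw [Nat.card_eq_fintype_card, Nat.card_eq_fintype_card, Fintype.card_subtype, Fintype.card_subtype,
      Finset.card_eq_sum_card_fiberwise (f := f) (t := Finset.univ.filter fun s => P s)
        (fun w hw => by
          rw [Finset.mem_coe, Finset.mem_filter] at hw ⊢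
          exact ⟨Finset.mem_univ _, hw.2⟩)]
    refine Finset.sum_const_nat fun s hs => ?_
    rw [Finset.mem_filter] at hs
    rw [← h1 s, Finset.filter_filter]
    congr 1
    ext w
    simp only [Finset.mem_filter, Finset.mem_univ, true_and]
    exact ⟨fun h => h.2, fun h => ⟨by rw [h]; exact hs.2, h⟩⟩
  rw [h2, h3, Nat.card_eq_fintype_card (α := S)]
  ring

section

variable {G B : Type*} [CommGroup G] [CommGroup B] {s : G →* G →* B} {I : Type*} [Fintype I]

theorem Q_mod (n : ℕ) (htors : ∀ a b, s a b ^ n = 1) (z : I → G) (w w' : I → I → ℤ)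
    (h : ∀ u v, (n : ℤ) ∣ w u v - w' u v) : Q s z w = Q s z w' := by
  refine Finset.prod_congr rfl fun q _ => ?_
  obtain ⟨c, hc⟩ := h q.1 q.2
  have e1 : w q.1 q.2 = w' q.1 q.2 + n * c := by rw [← hc]; ring
  rw [e1, _root_.zpow_add, _root_.zpow_mul, zpow_natCast, htors, _root_.one_zpow, mul_one]

/-- the class attached to a matrix modulo `p` -/
def Psi (p : ℕ) [Fact p.Prime] (htors : ∀ a b, s a b ^ p = 1) (z : I → G) : Matrix I I (ZMod p) →+ Additive B where
  toFun w := Additive.ofMul (Q s z fun u v => ((w u v).val : ℤ))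
  map_zero' := by
    rw [ofMul_eq_zero]
    have : (fun u v => (((0 : Matrix I I (ZMod p)) u v).val : ℤ)) = 0 := by
      funext u v
      simp
    rw [this, Q_zero]
  map_add' w w' := by
    rw [← ofMul_mul, ← Q_add]
    congr 1
    refine Q_mod p htors z _ _ fun u v => ?_
    haveI : NeZero p := ⟨(Fact.out : p.Prime).ne_zero⟩
    rw [← ZMod.intCast_zmod_eq_zero_iff_dvd]
    simp only [Pi.add_apply, Matrix.add_apply]
    push_cast
    simp

theorem Psi_apply (p : ℕ) [Fact p.Prime] (htors : ∀ a b, s a b ^ p = 1) (z : I → G) (w : Matrix I I (ZMod p)) :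
    (Psi p htors z w).toMul = Q s z fun u v => ((w u v).val : ℤ) := rfl

/-- the range -/
theorem Psi_mem (p : ℕ) [Fact p.Prime] (htors : ∀ a b, s a b ^ p = 1) (z : I → G) (S : Subgroup B)
    (hS : S = Subgroup.closure {γ | ∃ u v, γ = s (z u) (z v)}) (w : Matrix I I (ZMod p)) :
    (Psi p htors z w).toMul ∈ S := by
  rw [Psi_apply, Q, hS]
  exact Subgroup.prod_mem _ fun q _ => Subgroup.zpow_mem _ (Subgroup.subset_closure
    (show s (z q.1) (z q.2) ∈ {γ | ∃ u v, γ = s (z u) (z v)} from ⟨q.1, q.2, rfl⟩)) _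

theorem Psi_surj [DecidableEq I] (p : ℕ) [Fact p.Prime] (htors : ∀ a b, s a b ^ p = 1) (z : I → G) (S : Subgroup B)
    (hS : S = Subgroup.closure {γ | ∃ u v, γ = s (z u) (z v)}) (β : B) (hβ : β ∈ S) :
    ∃ w : Matrix I I (ZMod p), (Psi p htors z w).toMul = β := by
  haveI : NeZero p := ⟨(Fact.out : p.Prime).ne_zero⟩
  let T : Subgroup B :=
    { carrier := {β | ∃ w : Matrix I I (ZMod p), (Psi p htors z w).toMul = β}
      mul_mem' := by
        rintro _ _ ⟨w, rfl⟩ ⟨w', rfl⟩
        exact ⟨w + w', by rw [map_add, toMul_add]⟩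
      one_mem' := ⟨0, by rw [map_zero, toMul_zero]⟩
      inv_mem' := by
        rintro _ ⟨w, rfl⟩
        exact ⟨-w, by rw [map_neg, toMul_neg]⟩ }
  have hT : S ≤ T := by
    rw [hS, Subgroup.closure_le]
    rintro _ ⟨u, v, rfl⟩
    refine ⟨Matrix.of fun a b => if a = u ∧ b = v then 1 else 0, ?_⟩
    rw [Psi_apply, ← Q_single s z u v]
    refine Q_mod p htors z _ _ fun a b => ?_
    rw [← ZMod.intCast_zmod_eq_zero_iff_dvd]
    simp only [Matrix.of_apply, Pi.single_apply]
    push_cast
    by_cases h1 : a = u <;> by_cases h2 : b = v <;> simp [h1, h2]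
  exact hT hβ

/-- the homomorphism onto the group generated by the symbols -/
def PsiS (p : ℕ) [Fact p.Prime] (htors : ∀ a b, s a b ^ p = 1) (z : I → G) (S : Subgroup B)
    (hS : S = Subgroup.closure {γ | ∃ u v, γ = s (z u) (z v)}) : Matrix I I (ZMod p) →+ Additive S where
  toFun w := Additive.ofMul ⟨(Psi p htors z w).toMul, Psi_mem p htors z S hS w⟩
  map_zero' := by
    rw [ofMul_eq_zero]
    exact Subtype.ext (congrArg Additive.toMul (map_zero (Psi p htors z)))
  map_add' w w' := by
    rw [← ofMul_mul]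
    congr 1
    exact Subtype.ext (congrArg Additive.toMul (map_add (Psi p htors z) w w'))

theorem PsiS_surj [DecidableEq I] (p : ℕ) [Fact p.Prime] (htors : ∀ a b, s a b ^ p = 1) (z : I → G) (S : Subgroup B)
    (hS : S = Subgroup.closure {γ | ∃ u v, γ = s (z u) (z v)}) : Function.Surjective (PsiS p htors z S hS) := by
  intro β
  obtain ⟨w, hw⟩ := Psi_surj p htors z S hS β.toMul β.toMul.2
  exact ⟨w, congrArg Additive.ofMul (Subtype.ext hw)⟩

/-- a class with a degenerate translate is a product of `g - 1` symbols -/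
theorem sing_class [DecidableEq I] (hanti : ∀ a b, s a b = (s b a)⁻¹) (p : ℕ) [hp : Fact p.Prime]
    (htors : ∀ a b, s a b ^ p = 1) (ε : G) (hε : ∀ a, s ε a = 1) (hdiag : ∀ a, s a a = 1 ∨ s a a = s a ε)
    (g : ℕ) (hg : 0 < g) (hI : Fintype.card I = 2 * g) (z : I → G) (w : Matrix I I (ZMod p)) (w0 : I → I → ℤ)
    (hw0 : Q s z w0 = 1)
    (h : (al w + red p (dif w0)).det = 0) :
    ∃ x y : Fin (g - 1) → G, (Psi p htors z w).toMul = ∏ i, s (x i) (y i) := by
  haveI : NeZero p := ⟨hp.out.ne_zero⟩
  have halt : Alt (al w + red p (dif w0)) := by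
    constructor
    · intro u
      simp [al, red, dif]
    · intro u v
      simp [al, red, dif]
      ring
  obtain ⟨e, f, hef⟩ := sing_decomp g hg hI _ halt h
  let e' : Fin (g - 1) → I → ℤ := fun i u => ((e i u).val : ℤ)
  let f' : Fin (g - 1) → I → ℤ := fun i u => ((f i u).val : ℤ)
  refine ⟨fun i => mon z (e' i), fun i => mon z (f' i), ?_⟩
  have h1 := mod_low hanti p htors ε (Subgroup.zpowers ε) (Subgroup.mem_zpowers ε) hdiag ⊥ z
    ((fun u v => ((w u v).val : ℤ)) + w0) (g - 1) e' f' (by
      intro u v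
      rw [← ZMod.intCast_zmod_eq_zero_iff_dvd, Int.cast_sub, sub_eq_zero]
      have h2 := congrFun (congrFun hef u) v
      simp only [al, red, dif, Matrix.add_apply, Matrix.sub_apply, Matrix.transpose_apply, Matrix.map_apply,
        Matrix.of_apply, Matrix.sum_apply, wdg, eq_intCast] at h2
      simp only [Pi.add_apply, Matrix.sum_apply, wdg, Matrix.of_apply, e', f']
      push_cast at h2 ⊢
      simp only [ZMod.natCast_val, ZMod.cast_id', id] 
      rw [← h2]
      ring)
  have h2 : low s (Subgroup.zpowers ε) ⊥ z ≤ ⊥ := by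
    refine sup_le le_rfl ?_
    rw [Subgroup.closure_le]
    rintro γ ⟨a, ⟨c, rfl⟩, u, rfl⟩
    change s (ε ^ c) (z u) ∈ _
    rw [map_zpow, MonoidHom.zpow_apply, hε, _root_.one_zpow]
    exact Subgroup.one_mem _
  have h3 := h2 h1
  rw [Subgroup.mem_bot, mul_inv_eq_one, Q_add, hw0, mul_one] at h3
  rw [Psi_apply, h3]

end

end Pool.Agent.Q128.PI
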