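import Mathlib
import Pool.Agent.H47.L.R_pool_sql_team_seeded_2aa45f1a.Q128.PI.Push

/-! Brauer classes generated by symbols and matrices modulo `p`. -/

set_option autoImplicit false
set_option linter.all false

open Matrix

namespace Pool.Agent.Q128.PI

open Pool.Agent.Helper18.Br Pool.Agent.H552R3.SymBr Pool.Agent.H552R3.SymPred Pool.Agent.H552R3.Tsen
  Pool.Agent.Y109.PI

universe u

/-- the number of classes which are sums of `g - 1` symbols is at least the proportion of matrices with a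
degenerate translate by a relation -/
theorem count_classes {k K : Type u} [Field k] [IsAlgClosed k] [Field K] [Algebra k K] (p : ℕ) [hp : Fact p.Prime]
    (ζ : K) (hζ : IsPrimitiveRoot ζ p) (g : ℕ) (hg : 0 < g) (z : Fin (2 * g) → Kˣ)
    (θ : Fin (2 * g) → Fin (2 * g) → BrauerGroup.{u, u} K) (hθ : ∀ u v, IsSym p ζ (z u) (z v) (θ u v))
    (R : Set (Fin (2 * g) → Fin (2 * g) → ℤ)) (hR : ∀ w ∈ R, ∏ u, ∏ v, θ u v ^ w u v = 1)
    (S : Subgroup (BrauerGroup.{u, u} K)) (hS : S = Subgroup.closure {γ | ∃ u v, γ = θ u v}) :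
    Finite S ∧
      Nat.card S * Nat.card {w : Matrix (Fin (2 * g)) (Fin (2 * g)) (ZMod p) //
          ∃ w0 ∈ R, (al w + red p (dif w0)).det = 0} ≤
        Fintype.card (Matrix (Fin (2 * g)) (Fin (2 * g)) (ZMod p)) *
          Nat.card {α : S // IndDvd (α : BrauerGroup.{u, u} K) (p ^ (g - 1)) ∧
            ∃ (s t : Fin (g - 1) → Kˣ) (σ : Fin (g - 1) → BrauerGroup.{u, u} K),
              (∀ i, IsSym p ζ (s i) (t i) (σ i)) ∧ (α : BrauerGroup.{u, u} K) = ∏ i, σ i} := by
  classical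
  have hn : 0 < p := hp.out.pos
  have htors : ∀ a b, symHom hn hζ a b ^ p = 1 := fun a b => symCl_tors hn hζ a b
  have hθ' : ∀ u v, θ u v = symHom hn hζ (z u) (z v) := fun u v =>
    (isSym_iff hn hζ (z u) (z v) (θ u v)).1 (hθ u v)
  have hS' : S = Subgroup.closure {γ | ∃ u v, γ = symHom hn hζ (z u) (z v)} := by
    rw [hS]
    simp only [hθ']
  have hε : ∀ a, symHom hn hζ (-1) a = 1 := by
    intro a
    obtain ⟨d, hd⟩ := IsAlgClosed.exists_pow_nat_eq (-1 : k) hn
    have hd0 : d ≠ 0 := by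
      rintro rfl
      rw [zero_pow hn.ne'] at hd
      exact one_ne_zero (neg_eq_zero.1 hd.symm)
    have hc : (-1 : Kˣ) = (Units.map (algebraMap k K).toMonoidHom (Units.mk0 d hd0)) ^ p := by
      ext
      rw [Units.val_pow_eq_pow_val, Units.coe_map, Units.val_mk0]
      change -((1 : Kˣ) : K) = (algebraMap k K d) ^ p
      rw [← map_pow, hd]
      simp
    rw [hc, map_pow, MonoidHom.pow_apply, htors]
  let f := PsiS p htors z S hS'
  have hf := PsiS_surj p htors z S hS'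
  obtain ⟨hfin, hcard⟩ := push f hf (fun α => IndDvd ((α.toMul : S) : BrauerGroup.{u, u} K) (p ^ (g - 1)) ∧
      ∃ (s t : Fin (g - 1) → Kˣ) (σ : Fin (g - 1) → BrauerGroup.{u, u} K),
        (∀ i, IsSym p ζ (s i) (t i) (σ i)) ∧ ((α.toMul : S) : BrauerGroup.{u, u} K) = ∏ i, σ i)
  haveI : Finite S := hfin
  refine ⟨hfin, ?_⟩
  have e1 : Nat.card (Additive S) = Nat.card S := rfl
  have e2 : Nat.card {α : Additive S // IndDvd ((α.toMul : S) : BrauerGroup.{u, u} K) (p ^ (g - 1)) ∧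
      ∃ (s t : Fin (g - 1) → Kˣ) (σ : Fin (g - 1) → BrauerGroup.{u, u} K),
        (∀ i, IsSym p ζ (s i) (t i) (σ i)) ∧ ((α.toMul : S) : BrauerGroup.{u, u} K) = ∏ i, σ i} =
      Nat.card {α : S // IndDvd (α : BrauerGroup.{u, u} K) (p ^ (g - 1)) ∧
            ∃ (s t : Fin (g - 1) → Kˣ) (σ : Fin (g - 1) → BrauerGroup.{u, u} K),
              (∀ i, IsSym p ζ (s i) (t i) (σ i)) ∧ (α : BrauerGroup.{u, u} K) = ∏ i, σ i} := rfl
  rw [e1, e2] at hcard
  rw [hcard]
  refine Nat.mul_le_mul_left _ ?_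
  refine Nat.card_le_card_of_injective (fun w => ⟨w.1, ?_⟩) ?_
  · obtain ⟨w, w0, hw0, hdet⟩ := w
    have h0 : Q (symHom hn hζ) z w0 = 1 := by
      rw [← hR w0 hw0, Q, Fintype.prod_prod_type]
      refine Finset.prod_congr rfl fun u _ => Finset.prod_congr rfl fun v _ => ?_
      rw [hθ']
    obtain ⟨x, y, hxy⟩ := sing_class (s := symHom hn hζ) (fun a b => symCl_anti hn hζ a b) p htors (-1) hε
      (fun a => symCl_diag hn hζ a) g hg (by simp) z w w0 h0 hdet
    refine ⟨?_, x, y, fun i => symHom hn hζ (x i) (y i), fun i => (isSym_iff hn hζ _ _ _).2 rfl, hxy⟩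
    change IndDvd ((Psi p htors z w).toMul) _
    rw [hxy]
    exact (hasRep_prod hn hζ (g - 1) x y).indDvd
  · intro w w' h
    rw [Subtype.mk.injEq] at h
    exact Subtype.ext h

end Pool.Agent.Q128.PI
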