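import Mathlib
import Pool.Agent.H47.L.R_pool_sql_team_seeded_2aa45f1a.Q128.PI.Bad

/-! The proportion of alternating matrices with a degenerate translate having a simple root. -/

set_option autoImplicit false
set_option linter.all false

open Matrix

namespace Pool.Agent.Q128.PI

variable {F : Type*} [Field F] [Fintype F] [DecidableEq F] {I : Type*} [Fintype I] [DecidableEq I]

/-- a degenerate translate with a simple root -/
def Smp {X : Type*} (T : X → Matrix I I F) (D1 D2 : Matrix I I F) (w : Matrix I I F) : Prop :=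
  ∃ (x : X) (a b : I → F), Indep a b ∧ (al w + T x) *ᵥ a = 0 ∧ (al w + T x) *ᵥ b = 0 ∧
    (∀ c, (al w + T x) *ᵥ c = 0 → ∃ y z : F, c = y • a + z • b) ∧
    (a ⬝ᵥ (D1 *ᵥ b) ≠ 0 ∨ a ⬝ᵥ (D2 *ᵥ b) ≠ 0)

theorem altM_al (w : Matrix I I F) : AltM (al w) :=
  ⟨fun u => by simp [al], fun u v => by simp [al]⟩

theorem exists_h (D : Matrix I I F) (hD : AltM D) (hD0 : D ≠ 0) :
    ∃ h, 1 ≤ h ∧ Fintype.card (I → F) = Fintype.card F ^ 2 * h := by
  have h2 : 2 ≤ Fintype.card I := by
    obtain ⟨i, j, hij⟩ : ∃ i j, D i j ≠ 0 := by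
      by_contra hc
      push Not at hc
      exact hD0 (Matrix.ext hc)
    have hne : i ≠ j := by
      rintro rfl
      exact hij (hD.1 i)
    exact Fintype.one_lt_card_iff.2 ⟨i, j, hne⟩
  have hq : 0 < Fintype.card F := Fintype.card_pos
  refine ⟨Fintype.card F ^ (Fintype.card I - 2), Nat.one_le_iff_ne_zero.2 (by positivity), ?_⟩
  rw [Fintype.card_fun, ← pow_add, Nat.add_sub_cancel' h2]

theorem split_good {X : Type*} [Fintype X] [DecidableEq X] (g : ℕ) (hI : Fintype.card I = 2 * g) (T : X → Matrix I I F)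
    (hT : ∀ x, AltM (T x)) (D1 D2 : Matrix I I F)
    [DecidablePred fun w : Matrix I I F => ∃ x, (al w + T x).det = 0]
    [DecidablePred fun w : Matrix I I F => Smp T D1 D2 w]
    [DecidablePred fun w : Matrix I I F => ∃ x a b, Indep a b ∧ Ev (T x) a w ∧ Ev (T x) b w ∧ P2 D1 D2 a b] :
    (Finset.univ.filter fun w : Matrix I I F => ∃ x, (al w + T x).det = 0).card ≤
      (Finset.univ.filter fun w : Matrix I I F => Smp T D1 D2 w).card +
      (Finset.univ.filter fun w : Matrix I I F => ∃ x a b, Indep a b ∧ Ev (T x) a w ∧ Ev (T x) b w ∧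
        P2 D1 D2 a b).card := by
  refine le_trans (Finset.card_le_card ?_) (Finset.card_union_le _ _)
  intro w hw
  rw [Finset.mem_filter] at hw
  obtain ⟨_, x, hx⟩ := hw
  rw [Finset.mem_union, Finset.mem_filter, Finset.mem_filter]
  rcases dich g hI (al w + T x) D1 D2 ((altM_al w).add (hT x)) hx with ⟨a, b, h1, h2, h3, h4, h5⟩ |
    ⟨a, b, h1, h2, h3, h4, h5⟩
  · exact Or.inr ⟨Finset.mem_univ _, x, a, b, h1, h2, h3, h4, h5⟩
  · exact Or.inl ⟨Finset.mem_univ _, x, a, b, h1, h2, h3, h4, h5⟩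

/-- **One relation.** -/
theorem simple_one (g : ℕ) (hI : Fintype.card I = 2 * g) (D : Matrix I I F) (hD : AltM D) (hD0 : D ≠ 0)
    (hq4 : Fintype.card F ≠ 4) [DecidablePred fun w : Matrix I I F => Smp (fun x : F => x • D) D 0 w] :
    Fintype.card F * Fintype.card (Matrix I I F) <
      2 * Fintype.card F * (Finset.univ.filter fun w : Matrix I I F => Smp (fun x : F => x • D) D 0 w).card +
        4 * Fintype.card (Matrix I I F) := by
  classical
  have hM0 : 0 < Fintype.card (Matrix I I F) := Fintype.card_pos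
  have hG := half D hD hD0
  have hs := split_good g hI (fun x : F => x • D) (fun x => hD.smul x) D 0
  obtain ⟨h, hh, hn⟩ := exists_h D hD hD0
  have hb := bad_count (fun x : F => x • D) D 0 hD ⟨fun _ => rfl, fun _ _ => by simp⟩
  have hc := cnt1 D hD hD0 h hn
  rw [hn] at hb
  set q := Fintype.card F with hq
  set M := Fintype.card (Matrix I I F) with hM
  set G := (Finset.univ.filter fun w : Matrix I I F => ∃ x : F, (al w + x • D).det = 0).card with hGd
  set good := (Finset.univ.filter fun w : Matrix I I F => Smp (fun x : F => x • D) D 0 w).card with hgood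
  set bad := (Finset.univ.filter fun w : Matrix I I F => ∃ x : F, ∃ a b : I → F, Indep a b ∧ Ev (x • D) a w ∧
    Ev (x • D) b w ∧ P2 D 0 a b).card with hbad
  rcases Nat.lt_or_ge q 5 with h5 | h5
  · have h3 : q ≤ 3 := by omega
    nlinarith
  · have e1 : bad * ((q - 1) ^ 2 * q ^ 2) * (q ^ 2 * h) ^ 2 ≤ q * (q ^ 2 * h * (h * (q + 1))) * (q ^ 3 * M) := by
      exact hb.trans (Nat.mul_le_mul_right _ (Nat.mul_le_mul_left _ hc))
    obtain ⟨r, hr⟩ : ∃ r, q = r + 5 := ⟨q - 5, by omega⟩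
    rw [hr] at e1 ⊢
    have e2 : r + 5 - 1 = r + 4 := by omega
    rw [e2] at e1
    have e3 : ((r + 5) ^ 6 * h ^ 2) * (bad * (r + 4) ^ 2) ≤ ((r + 5) ^ 6 * h ^ 2) * ((r + 6) * M) := by
      calc ((r + 5) ^ 6 * h ^ 2) * (bad * (r + 4) ^ 2) = bad * ((r + 4) ^ 2 * (r + 5) ^ 2) * ((r + 5) ^ 2 * h) ^ 2 := by
            ring
        _ ≤ _ := e1
        _ = _ := by ring
    have e4 := Nat.le_of_mul_le_mul_left e3 (by positivity)
    have e5 : (r + 4) ^ 2 * (2 * (r + 5) * bad) ≤ (r + 4) ^ 2 * (4 * M) := by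
      calc (r + 4) ^ 2 * (2 * (r + 5) * bad) = 2 * (r + 5) * (bad * (r + 4) ^ 2) := by ring
        _ ≤ 2 * (r + 5) * ((r + 6) * M) := Nat.mul_le_mul_left _ e4
        _ = (2 * (r + 5) * (r + 6)) * M := by ring
        _ ≤ (4 * (r + 4) ^ 2) * M := Nat.mul_le_mul_right _ (by nlinarith)
        _ = _ := by ring
    have e6 := Nat.le_of_mul_le_mul_left e5 (by positivity)
    have e7 : (r + 5) * M < (r + 5) * (2 * G) := Nat.mul_lt_mul_of_pos_left hG (by omega)
    calc (r + 5) * M < (r + 5) * (2 * G) := e7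
      _ ≤ (r + 5) * (2 * (good + bad)) := Nat.mul_le_mul_left _ (Nat.mul_le_mul_left _ hs)
      _ = 2 * (r + 5) * good + 2 * (r + 5) * bad := by ring
      _ ≤ _ := Nat.add_le_add_left e6 _

/-- **Two relations.** -/
theorem simple_two (g : ℕ) (hI : Fintype.card I = 2 * g) (D1 D2 : Matrix I I F) (hD1 : AltM D1) (hD2 : AltM D2)
    (hind : ∀ x y : F, x • D1 + y • D2 = 0 → x = 0 ∧ y = 0)
    [DecidablePred fun w : Matrix I I F => Smp (fun x : F × F => x.1 • D1 + x.2 • D2) D1 D2 w] :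
    Fintype.card F * Fintype.card (Matrix I I F) <
      Fintype.card F * (Finset.univ.filter fun w : Matrix I I F =>
        Smp (fun x : F × F => x.1 • D1 + x.2 • D2) D1 D2 w).card + 7 * Fintype.card (Matrix I I F) := by
  classical
  have hD10 : D1 ≠ 0 := by
    rintro rfl
    exact one_ne_zero (hind 1 0 (by simp)).1
  have hM0 : 0 < Fintype.card (Matrix I I F) := Fintype.card_pos
  have hG := almost D1 D2 hD1 hD2 hind
  have hs := split_good g hI (fun x : F × F => x.1 • D1 + x.2 • D2) (fun x => (hD1.smul _).add (hD2.smul _)) D1 D2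
  obtain ⟨h, hh, hn⟩ := exists_h D1 hD1 hD10
  have hb := bad_count (fun x : F × F => x.1 • D1 + x.2 • D2) D1 D2 hD1 hD2
  have hc := cnt2 D1 D2 hD1 hD2 hind h hn
  have hX : Fintype.card (F × F) = Fintype.card F ^ 2 := by rw [Fintype.card_prod, sq]
  rw [hX] at hb
  have hGG : (Finset.univ.filter fun w : Matrix I I F => ∃ x y : F, (al w + (x • D1 + y • D2)).det = 0).card ≤
      (Finset.univ.filter fun w : Matrix I I F => ∃ x : F × F, (al w + (x.1 • D1 + x.2 • D2)).det = 0).card := by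
    refine Finset.card_le_card fun w hw => ?_
    rw [Finset.mem_filter] at hw ⊢
    obtain ⟨_, x, y, hxy⟩ := hw
    exact ⟨Finset.mem_univ _, (x, y), hxy⟩
  set q := Fintype.card F with hq
  set M := Fintype.card (Matrix I I F) with hM
  set G := (Finset.univ.filter fun w : Matrix I I F => ∃ x y : F, (al w + (x • D1 + y • D2)).det = 0).card with hGd
  set G' := (Finset.univ.filter fun w : Matrix I I F => ∃ x : F × F, (al w + (x.1 • D1 + x.2 • D2)).det = 0).card
    with hG'd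
  set good := (Finset.univ.filter fun w : Matrix I I F =>
    Smp (fun x : F × F => x.1 • D1 + x.2 • D2) D1 D2 w).card with hgood
  set bad := (Finset.univ.filter fun w : Matrix I I F => ∃ x : F × F, ∃ a b : I → F, Indep a b ∧
    Ev (x.1 • D1 + x.2 • D2) a w ∧ Ev (x.1 • D1 + x.2 • D2) b w ∧ P2 D1 D2 a b).card with hbad
  rcases Nat.lt_or_ge q 5 with h5 | h5
  · nlinarith
  · have e1 : bad * ((q - 1) ^ 2 * q ^ 2) * (q ^ 2 * h) ^ 2 ≤ q ^ 2 * ((3 * q ^ 2 + q) * h ^ 2) * (q ^ 3 * M) := by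
      rw [← hn]
      exact hb.trans (Nat.mul_le_mul_right _ (Nat.mul_le_mul_left _ hc))
    obtain ⟨r, hr⟩ : ∃ r, q = r + 5 := ⟨q - 5, by omega⟩
    rw [hr] at e1 hG ⊢
    have e2 : r + 5 - 1 = r + 4 := by omega
    rw [e2] at e1
    have e3 : ((r + 5) ^ 6 * h ^ 2) * (bad * (r + 4) ^ 2) ≤ ((r + 5) ^ 6 * h ^ 2) * ((3 * (r + 5) + 1) * M) := by
      calc ((r + 5) ^ 6 * h ^ 2) * (bad * (r + 4) ^ 2) = bad * ((r + 4) ^ 2 * (r + 5) ^ 2) * ((r + 5) ^ 2 * h) ^ 2 := by
            ring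
        _ ≤ _ := e1
        _ = _ := by ring
    have e4 := Nat.le_of_mul_le_mul_left e3 (by positivity)
    have e5 : (r + 4) ^ 2 * ((r + 5) * bad) ≤ (r + 4) ^ 2 * (5 * M) := by
      calc (r + 4) ^ 2 * ((r + 5) * bad) = (r + 5) * (bad * (r + 4) ^ 2) := by ring
        _ ≤ (r + 5) * ((3 * (r + 5) + 1) * M) := Nat.mul_le_mul_left _ e4
        _ = ((r + 5) * (3 * (r + 5) + 1)) * M := by ring
        _ ≤ (5 * (r + 4) ^ 2) * M := Nat.mul_le_mul_right _ (by nlinarith)
        _ = _ := by ring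
    have e6 := Nat.le_of_mul_le_mul_left e5 (by positivity)
    calc (r + 5) * M < (r + 5) * G + 2 * M := hG
      _ ≤ (r + 5) * (good + bad) + 2 * M := Nat.add_le_add_right (Nat.mul_le_mul_left _ (hGG.trans hs)) _
      _ = (r + 5) * good + (r + 5) * bad + 2 * M := by ring
      _ ≤ (r + 5) * good + 5 * M + 2 * M := Nat.add_le_add_right (Nat.add_le_add_left e6 _) _
      _ = _ := by ring

end Pool.Agent.Q128.PI
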