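import Mathlib
import Pool.Agent.H47.L.R_pool_sql_team_seeded_2aa45f1a.Q128.PI.Push
import Pool.Agent.H47.L.R_pool_sql_team_seeded_2aa45f1a.Q128.PI.Lift
import Pool.Agent.H47.L.R_pool_sql_team_seeded_2aa45f1a.Q128.PI.SimpleCount

/-! Classes of prime power period. -/

set_option autoImplicit false
set_option linter.all false

open Matrix

namespace Pool.Agent.Q128.PI

open Pool.Agent.Helper18.Br Pool.Agent.H552R3.SymBr Pool.Agent.H552R3.SymPred Pool.Agent.H552R3.Tsen
  Pool.Agent.Y109.PI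

universe u

section

variable {G B : Type*} [CommGroup G] [CommGroup B] {s : G →* G →* B} {I : Type*} [Fintype I]

/-- the class attached to a matrix modulo `n` -/
def PsiN (n : ℕ) [NeZero n] (htors : ∀ a b, s a b ^ n = 1) (z : I → G) : Matrix I I (ZMod n) →+ Additive B where
  toFun w := Additive.ofMul (Q s z fun u v => ((w u v).val : ℤ))
  map_zero' := by
    rw [ofMul_eq_zero]
    have : (fun u v => (((0 : Matrix I I (ZMod n)) u v).val : ℤ)) = 0 := by
      funext u v
      simp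
    rw [this, Q_zero]
  map_add' w w' := by
    rw [← ofMul_mul, ← Q_add]
    congr 1
    refine Q_mod n htors z _ _ fun u v => ?_
    rw [← ZMod.intCast_zmod_eq_zero_iff_dvd]
    simp only [Pi.add_apply, Matrix.add_apply]
    push_cast
    simp

theorem PsiN_apply (n : ℕ) [NeZero n] (htors : ∀ a b, s a b ^ n = 1) (z : I → G) (w : Matrix I I (ZMod n)) :
    (PsiN n htors z w).toMul = Q s z fun u v => ((w u v).val : ℤ) := rfl

theorem PsiN_mem (n : ℕ) [NeZero n] (htors : ∀ a b, s a b ^ n = 1) (z : I → G) (S : Subgroup B)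
    (hS : S = Subgroup.closure {γ | ∃ u v, γ = s (z u) (z v)}) (w : Matrix I I (ZMod n)) :
    (PsiN n htors z w).toMul ∈ S := by
  rw [PsiN_apply, Q, hS]
  exact Subgroup.prod_mem _ fun q _ => Subgroup.zpow_mem _ (Subgroup.subset_closure
    (show s (z q.1) (z q.2) ∈ {γ | ∃ u v, γ = s (z u) (z v)} from ⟨q.1, q.2, rfl⟩)) _

theorem PsiN_surj [DecidableEq I] (n : ℕ) [NeZero n] (htors : ∀ a b, s a b ^ n = 1) (z : I → G) (S : Subgroup B)
    (hS : S = Subgroup.closure {γ | ∃ u v, γ = s (z u) (z v)}) (β : B) (hβ : β ∈ S) :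
    ∃ w : Matrix I I (ZMod n), (PsiN n htors z w).toMul = β := by
  let T : Subgroup B :=
    { carrier := {β | ∃ w : Matrix I I (ZMod n), (PsiN n htors z w).toMul = β}
      mul_mem' := by
        rintro _ _ ⟨w, rfl⟩ ⟨w', rfl⟩
        exact ⟨w + w', by rw [map_add, toMul_add]⟩
      one_mem' := ⟨0, by rw [map_zero, toMul_zero]⟩
      inv_mem' := by
        rintro _ ⟨w, rfl⟩
        exact ⟨-w, by rw [map_neg, toMul_neg]⟩ }
  have hT : S ≤ T := by
    rw [hS, Subgroup.closure_le]
    rintro _ ⟨u, v, rfl⟩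
    refine ⟨Matrix.of fun a b => if a = u ∧ b = v then 1 else 0, ?_⟩
    rw [PsiN_apply, ← Q_single s z u v]
    refine Q_mod n htors z _ _ fun a b => ?_
    rw [← ZMod.intCast_zmod_eq_zero_iff_dvd]
    simp only [Matrix.of_apply, Pi.single_apply]
    push_cast
    by_cases h1 : a = u <;> by_cases h2 : b = v <;> simp [h1, h2]
  exact hT hβ

/-- the homomorphism onto the group generated by the symbols -/
def PsiNS (n : ℕ) [NeZero n] (htors : ∀ a b, s a b ^ n = 1) (z : I → G) (S : Subgroup B)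
    (hS : S = Subgroup.closure {γ | ∃ u v, γ = s (z u) (z v)}) : Matrix I I (ZMod n) →+ Additive S where
  toFun w := Additive.ofMul ⟨(PsiN n htors z w).toMul, PsiN_mem n htors z S hS w⟩
  map_zero' := by
    rw [ofMul_eq_zero]
    exact Subtype.ext (congrArg Additive.toMul (map_zero (PsiN n htors z)))
  map_add' w w' := by
    rw [← ofMul_mul]
    congr 1
    exact Subtype.ext (congrArg Additive.toMul (map_add (PsiN n htors z) w w'))

theorem PsiNS_surj [DecidableEq I] (n : ℕ) [NeZero n] (htors : ∀ a b, s a b ^ n = 1) (z : I → G) (S : Subgroup B)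
    (hS : S = Subgroup.closure {γ | ∃ u v, γ = s (z u) (z v)}) : Function.Surjective (PsiNS n htors z S hS) := by
  intro β
  obtain ⟨w, hw⟩ := PsiN_surj n htors z S hS β.toMul β.toMul.2
  exact ⟨w, congrArg Additive.ofMul (Subtype.ext hw)⟩

/-- a class with a simple degenerate translate modulo `p` is a product of `g - 1` symbols of degree `p ^ m` -/
theorem simple_class [DecidableEq I] (hanti : ∀ a b, s a b = (s b a)⁻¹) (p m : ℕ) [hp : Fact p.Prime] (hm : 0 < m)
    [NeZero (p ^ m)] (htors : ∀ a b, s a b ^ (p ^ m) = 1) (ε : G) (hε : ∀ a, s ε a = 1)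
    (hdiag : ∀ a, s a a = 1 ∨ s a a = s a ε)
    (g : ℕ) (hI : Fintype.card I = 2 * g) (z : I → G) (w : Matrix I I (ZMod (p ^ m))) (w0 w1 : I → I → ℤ)
    (hw0 : Q s z w0 = 1) (hw1 : Q s z w1 = 1) (a b : I → ZMod p) (hab : Indep a b)
    (ha : (al (w.map (ZMod.castHom (dvd_pow_self p hm.ne') (ZMod p))) + red p (dif w0)) *ᵥ a = 0)
    (hb : (al (w.map (ZMod.castHom (dvd_pow_self p hm.ne') (ZMod p))) + red p (dif w0)) *ᵥ b = 0)
    (hker : ∀ c, (al (w.map (ZMod.castHom (dvd_pow_self p hm.ne') (ZMod p))) + red p (dif w0)) *ᵥ c = 0 →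
      ∃ y z : ZMod p, c = y • a + z • b)
    (hδ : a ⬝ᵥ (red p (dif w1) *ᵥ b) ≠ 0) :
    ∃ x y : Fin (g - 1) → G, (PsiN (p ^ m) htors z w).toMul = ∏ i, s (x i) (y i) := by
  haveI : NeZero p := ⟨hp.out.ne_zero⟩
  let W : I → I → ℤ := fun u v => ((w u v).val : ℤ)
  have hWr : (dif (W + w0)).map (Int.castRingHom (ZMod p)) =
      al (w.map (ZMod.castHom (dvd_pow_self p hm.ne') (ZMod p))) + red p (dif w0) := by
    ext u v
    simp only [dif, red, al, W, Matrix.map_apply, Matrix.of_apply, Matrix.add_apply, Matrix.sub_apply,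
      Matrix.transpose_apply, Pi.add_apply, eq_intCast, ZMod.castHom_apply]
    push_cast
    have e : ∀ t : ZMod (p ^ m), ((t.val : ℕ) : ZMod p) = ZMod.cast t := fun t => by
      rw [ZMod.natCast_val]
    rw [e, e]
    ring
  obtain ⟨i, j, hij⟩ := hab
  obtain ⟨x, e, f, hef⟩ := lift_decomp p m hm g hI (dif (W + w0)) (dif w1) (alt_dif _) (alt_dif _) a b i j hij
    (by rw [hWr]; exact ha) (by rw [hWr]; exact hb) (by rw [hWr]; exact hker) hδ
  refine ⟨fun i => mon z (e i), fun i => mon z (f i), ?_⟩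
  have h1 := mod_low hanti (p ^ m) htors ε (Subgroup.zpowers ε) (Subgroup.mem_zpowers ε) hdiag ⊥ z
    (W + w0 + x • w1) (g - 1) e f (by
      intro u v
      have e1 : (W + w0 + x • w1) u v - (W + w0 + x • w1) v u = (dif (W + w0) + x • dif w1) u v := by
        simp only [Pi.add_apply, Pi.smul_apply, dif, Matrix.add_apply, Matrix.smul_apply, Matrix.of_apply, smul_eq_mul]
        ring
      rw [e1]
      exact hef u v)
  have h2 : low s (Subgroup.zpowers ε) ⊥ z ≤ ⊥ := by
    refine sup_le le_rfl ?_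
    rw [Subgroup.closure_le]
    rintro γ ⟨a, ⟨c, rfl⟩, u, rfl⟩
    change s (ε ^ c) (z u) ∈ _
    rw [map_zpow, MonoidHom.zpow_apply, hε, _root_.one_zpow]
    exact Subgroup.one_mem _
  have h3 := h2 h1
  rw [Subgroup.mem_bot, mul_inv_eq_one, Q_add, Q_add, Q_smul, hw0, hw1, _root_.one_zpow, mul_one, mul_one] at h3
  rw [PsiN_apply]
  exact h3

end

end Pool.Agent.Q128.PI
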