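import Mathlib
import Pool.Agent.H47.L.R_pool_sql_team_seeded_2aa45f1a.Q128.PI.Pow

/-! Brauer classes of prime power period and matrices modulo `p`. -/

set_option autoImplicit false
set_option linter.all false

open Matrix

namespace Pool.Agent.Q128.PI

open Pool.Agent.Helper18.Br Pool.Agent.H552R3.SymBr Pool.Agent.H552R3.SymPred Pool.Agent.H552R3.Tsen
  Pool.Agent.Y109.PI

universe u

/-- the number of classes which are sums of `g - 1` symbols of degree `p ^ m` -/
theorem count_pow {k K : Type u} [Field k] [IsAlgClosed k] [Field K] [Algebra k K] (p m : ℕ) [hp : Fact p.Prime]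
    (hm : 0 < m) (ζ : K) (hζ : IsPrimitiveRoot ζ (p ^ m)) (g : ℕ) (z : Fin (2 * g) → Kˣ)
    (θ : Fin (2 * g) → Fin (2 * g) → BrauerGroup.{u, u} K) (hθ : ∀ u v, IsSym (p ^ m) ζ (z u) (z v) (θ u v))
    (R : Set (Fin (2 * g) → Fin (2 * g) → ℤ)) (hR : ∀ w ∈ R, ∏ u, ∏ v, θ u v ^ w u v = 1)
    (X : Matrix (Fin (2 * g)) (Fin (2 * g)) (ZMod p) → Prop)
    (hX : ∀ w, X w → ∃ w0 ∈ R, ∃ w1 ∈ R, ∃ a b : Fin (2 * g) → ZMod p, Indep a b ∧
      (al w + red p (dif w0)) *ᵥ a = 0 ∧ (al w + red p (dif w0)) *ᵥ b = 0 ∧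
      (∀ c, (al w + red p (dif w0)) *ᵥ c = 0 → ∃ y z : ZMod p, c = y • a + z • b) ∧
      a ⬝ᵥ (red p (dif w1) *ᵥ b) ≠ 0)
    (S : Subgroup (BrauerGroup.{u, u} K)) (hS : S = Subgroup.closure {γ | ∃ u v, γ = θ u v}) :
    Finite S ∧
      Nat.card S * Nat.card {w : Matrix (Fin (2 * g)) (Fin (2 * g)) (ZMod p) // X w} ≤
        Fintype.card (Matrix (Fin (2 * g)) (Fin (2 * g)) (ZMod p)) *
          Nat.card {α : S // IndDvd (α : BrauerGroup.{u, u} K) ((p ^ m) ^ (g - 1)) ∧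
            ∃ (s t : Fin (g - 1) → Kˣ) (σ : Fin (g - 1) → BrauerGroup.{u, u} K),
              (∀ i, IsSym (p ^ m) ζ (s i) (t i) (σ i)) ∧ (α : BrauerGroup.{u, u} K) = ∏ i, σ i} := by
  classical
  have hn : 0 < p ^ m := pow_pos hp.out.pos m
  haveI : NeZero (p ^ m) := ⟨hn.ne'⟩
  have htors : ∀ a b, symHom hn hζ a b ^ (p ^ m) = 1 := fun a b => symCl_tors hn hζ a b
  have hθ' : ∀ u v, θ u v = symHom hn hζ (z u) (z v) := fun u v =>
    (isSym_iff hn hζ (z u) (z v) (θ u v)).1 (hθ u v)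
  have hS' : S = Subgroup.closure {γ | ∃ u v, γ = symHom hn hζ (z u) (z v)} := by
    rw [hS]
    simp only [hθ']
  have hε : ∀ a, symHom hn hζ (-1) a = 1 := by
    intro a
    obtain ⟨d, hd⟩ := IsAlgClosed.exists_pow_nat_eq (-1 : k) hn
    have hd0 : d ≠ 0 := by
      rintro rfl
      rw [zero_pow hn.ne'] at hd
      exact one_ne_zero (neg_eq_zero.1 hd.symm)
    have hc : (-1 : Kˣ) = (Units.map (algebraMap k K).toMonoidHom (Units.mk0 d hd0)) ^ (p ^ m) := by
      ext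
      rw [Units.val_pow_eq_pow_val, Units.coe_map, Units.val_mk0]
      change -((1 : Kˣ) : K) = (algebraMap k K d) ^ (p ^ m)
      rw [← map_pow, hd]
      simp
    rw [hc, map_pow, MonoidHom.pow_apply, htors]
  have hQ : ∀ w ∈ R, Q (symHom hn hζ) z w = 1 := by
    intro w hw
    rw [← hR w hw, Q, Fintype.prod_prod_type]
    refine Finset.prod_congr rfl fun u _ => Finset.prod_congr rfl fun v _ => ?_
    rw [hθ']
  let f := PsiNS (p ^ m) htors z S hS'
  have hf := PsiNS_surj (p ^ m) htors z S hS'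
  set P : Additive S → Prop := fun α => IndDvd ((α.toMul : S) : BrauerGroup.{u, u} K) ((p ^ m) ^ (g - 1)) ∧
      ∃ (s t : Fin (g - 1) → Kˣ) (σ : Fin (g - 1) → BrauerGroup.{u, u} K),
        (∀ i, IsSym (p ^ m) ζ (s i) (t i) (σ i)) ∧ ((α.toMul : S) : BrauerGroup.{u, u} K) = ∏ i, σ i with hP
  obtain ⟨hfin, hcard⟩ := push f hf P
  haveI : Finite S := hfin
  refine ⟨hfin, ?_⟩
  -- reduction modulo `p`
  let π : ZMod (p ^ m) →+* ZMod p := ZMod.castHom (dvd_pow_self p hm.ne') (ZMod p)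
  have hπs : Function.Surjective π := ZMod.castHom_surjective _
  let r : Matrix (Fin (2 * g)) (Fin (2 * g)) (ZMod (p ^ m)) →+ Matrix (Fin (2 * g)) (Fin (2 * g)) (ZMod p) :=
    { toFun := fun w => w.map π
      map_zero' := by ext u v; simp
      map_add' := fun w w' => by ext u v; simp }
  have hr : Function.Surjective r := by
    intro w
    choose c hc using fun u v => hπs (w u v)
    exact ⟨Matrix.of c, by ext u v; exact hc u v⟩
  obtain ⟨_, hcard2⟩ := push r hr X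
  set M := Fintype.card (Matrix (Fin (2 * g)) (Fin (2 * g)) (ZMod (p ^ m))) with hM
  have hM0 : 0 < M := Fintype.card_pos
  have hle : Nat.card {w // X (r w)} ≤ Nat.card {w // P (f w)} := by
    refine Nat.card_le_card_of_injective (fun w => ⟨w.1, ?_⟩) ?_
    · obtain ⟨w, hw⟩ := w
      obtain ⟨w0, hw0, w1, hw1, a, b, hab, ha, hb, hker, hδ⟩ := hX _ hw
      obtain ⟨x, y, hxy⟩ := simple_class (s := symHom hn hζ) (fun a b => symCl_anti hn hζ a b) p m hm htors (-1) hε
        (fun a => symCl_diag hn hζ a) g (by simp) z w w0 w1 (hQ w0 hw0) (hQ w1 hw1) a b hab ha hb hker hδ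
      refine ⟨?_, x, y, fun i => symHom hn hζ (x i) (y i), fun i => (isSym_iff hn hζ _ _ _).2 rfl, hxy⟩
      change IndDvd ((PsiN (p ^ m) htors z w).toMul) _
      rw [hxy]
      exact (hasRep_prod hn hζ (g - 1) x y).indDvd
    · intro w w' h
      rw [Subtype.mk.injEq] at h
      exact Subtype.ext h
  have e1 : Nat.card (Additive S) = Nat.card S := rfl
  have e2 : Nat.card {α : Additive S // P α} =
      Nat.card {α : S // IndDvd (α : BrauerGroup.{u, u} K) ((p ^ m) ^ (g - 1)) ∧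
            ∃ (s t : Fin (g - 1) → Kˣ) (σ : Fin (g - 1) → BrauerGroup.{u, u} K),
              (∀ i, IsSym (p ^ m) ζ (s i) (t i) (σ i)) ∧ (α : BrauerGroup.{u, u} K) = ∏ i, σ i} := rfl
  rw [e1, e2] at hcard
  rw [← e2] at hcard ⊢
  have e3 : Nat.card (Matrix (Fin (2 * g)) (Fin (2 * g)) (ZMod p)) =
      Fintype.card (Matrix (Fin (2 * g)) (Fin (2 * g)) (ZMod p)) := Nat.card_eq_fintype_card
  rw [e3] at hcard2
  have h4 : M * (Nat.card S * Nat.card {w : Matrix (Fin (2 * g)) (Fin (2 * g)) (ZMod p) // X w}) ≤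
      M * (Fintype.card (Matrix (Fin (2 * g)) (Fin (2 * g)) (ZMod p)) * Nat.card {α : Additive S // P α}) := by
    calc M * (Nat.card S * Nat.card {w : Matrix (Fin (2 * g)) (Fin (2 * g)) (ZMod p) // X w})
        = Nat.card S * (M * Nat.card {w : Matrix (Fin (2 * g)) (Fin (2 * g)) (ZMod p) // X w}) := by ring
      _ = Nat.card S * (Fintype.card (Matrix (Fin (2 * g)) (Fin (2 * g)) (ZMod p)) * Nat.card {w // X (r w)}) := by
          rw [hcard2]
      _ ≤ Nat.card S * (Fintype.card (Matrix (Fin (2 * g)) (Fin (2 * g)) (ZMod p)) * Nat.card {w // P (f w)}) :=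
          Nat.mul_le_mul_left _ (Nat.mul_le_mul_left _ hle)
      _ = Fintype.card (Matrix (Fin (2 * g)) (Fin (2 * g)) (ZMod p)) * (Nat.card S * Nat.card {w // P (f w)}) := by ring
      _ = Fintype.card (Matrix (Fin (2 * g)) (Fin (2 * g)) (ZMod p)) * (M * Nat.card {α : Additive S // P α}) := by
          rw [← hcard]
      _ = _ := by ring
  exact Nat.le_of_mul_le_mul_left h4 hM0

end Pool.Agent.Q128.PI
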